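import Mathlib

/-! # Functions of bounded degree on the subsets of a finite set, modulo prime powers -/

set_option autoImplicit false

namespace Pool.Agent.N389.PH

open Finset

variable {α : Type} [DecidableEq α]

/-- the monomial of `T` -/
def mon (T : Finset α) : Finset α → ℚ := fun A => if T ⊆ A then 1 else 0

/-- the functions of degree at most `D` -/
def Dg (α : Type) [DecidableEq α] (D : ℕ) : Submodule ℚ (Finset α → ℚ) :=
  Submodule.span ℚ {f | ∃ T : Finset α, T.card ≤ D ∧ f = mon T}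

lemma mon_mem {T : Finset α} {D : ℕ} (h : T.card ≤ D) : mon T ∈ Dg α D :=
  Submodule.subset_span ⟨T, h, rfl⟩

lemma Dg_mono {a b : ℕ} (h : a ≤ b) : Dg α a ≤ Dg α b :=
  Submodule.span_mono (by rintro f ⟨T, hT, rfl⟩; exact ⟨T, hT.trans h, rfl⟩)

lemma mon_mul (S T : Finset α) : mon S * mon T = mon (S ∪ T) := by
  funext A
  simp only [mon, Pi.mul_apply, union_subset_iff]
  by_cases h1 : S ⊆ A <;> by_cases h2 : T ⊆ A <;> simp [h1, h2]

lemma mul_mem {a b : ℕ} {f g : Finset α → ℚ} (hf : f ∈ Dg α a) (hg : g ∈ Dg α b) :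
    f * g ∈ Dg α (a + b) := by
  induction hf using Submodule.span_induction with
  | mem f hf =>
    obtain ⟨S, hS, rfl⟩ := hf
    induction hg using Submodule.span_induction with
    | mem g hg =>
      obtain ⟨T, hT, rfl⟩ := hg
      rw [mon_mul]
      exact mon_mem ((card_union_le _ _).trans (Nat.add_le_add hS hT))
    | zero => rw [mul_zero]; exact zero_mem _
    | add x y _ _ hx hy => rw [mul_add]; exact add_mem hx hy
    | smul c x _ hx => rw [mul_smul_comm]; exact Submodule.smul_mem _ c hx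
  | zero => rw [zero_mul]; exact zero_mem _
  | add x y _ _ hx hy => rw [add_mul]; exact add_mem hx hy
  | smul c x _ hx => rw [smul_mul_assoc]; exact Submodule.smul_mem _ c hx

lemma const_mem (c : ℚ) (D : ℕ) : (fun _ => c) ∈ Dg α D := by
  have h : (fun _ : Finset α => c) = c • mon (∅ : Finset α) := by
    funext A; simp [mon]
  rw [h]
  exact Submodule.smul_mem _ c (mon_mem (by simp))

lemma prod_mem' {ι : Type} (I : Finset ι) (f : ι → Finset α → ℚ) (w : ι → ℕ)
    (h : ∀ i ∈ I, f i ∈ Dg α (w i)) : (fun A => ∏ i ∈ I, f i A) ∈ Dg α (∑ i ∈ I, w i) := by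
  classical
  induction I using Finset.induction_on with
  | empty => simpa using const_mem (α := α) 1 0
  | insert a s ha ih =>
    rw [sum_insert ha]
    have h1 : (fun A => ∏ i ∈ insert a s, f i A) = f a * (fun A => ∏ i ∈ s, f i A) := by
      funext A; rw [prod_insert ha]; rfl
    rw [h1]
    exact mul_mem (h a (mem_insert_self _ _)) (ih fun i hi => h i (mem_insert_of_mem hi))

/-- alternating sums of functions of small degree vanish -/
lemma alt (K : Finset α) {D : ℕ} (hK : D < K.card) {f : Finset α → ℚ} (hf : f ∈ Dg α D) :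
    ∑ γ ∈ K.powerset, (-1 : ℚ) ^ γ.card * f γ = 0 := by
  induction hf using Submodule.span_induction with
  | mem f hf =>
    obtain ⟨T, hT, rfl⟩ := hf
    obtain ⟨u, huK, huT⟩ : ∃ u ∈ K, u ∉ T := by
      by_contra hcon
      push Not at hcon
      have := card_le_card (show K ⊆ T from hcon)
      omega
    have h1 : K = insert u (K.erase u) := (insert_erase huK).symm
    rw [h1, sum_powerset_insert (notMem_erase u K), ← sum_add_distrib]
    refine sum_eq_zero fun t ht => ?_
    have hut : u ∉ t := fun h => notMem_erase u K (mem_powerset.1 ht h)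
    have h2 : mon T (insert u t) = mon T t := by
      simp only [mon]
      congr 1
      rw [eq_iff_iff]
      constructor
      · intro h x hx
        rcases mem_insert.1 (h hx) with h3 | h3
        · exact absurd (h3 ▸ hx) huT
        · exact h3
      · intro h x hx
        exact mem_insert_of_mem (h hx)
    rw [h2, card_insert_of_notMem hut, pow_succ]
    ring
  | zero => simp
  | add x y _ _ hx hy =>
    simp only [Pi.add_apply, mul_add, sum_add_distrib, hx, hy, add_zero]
  | smul c x _ hx =>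
    have : ∑ γ ∈ K.powerset, (-1 : ℚ) ^ γ.card * (c • x) γ
        = c * ∑ γ ∈ K.powerset, (-1 : ℚ) ^ γ.card * x γ := by
      rw [mul_sum]
      refine sum_congr rfl fun γ _ => ?_
      simp only [Pi.smul_apply, smul_eq_mul]
      ring
    rw [this, hx, mul_zero]

lemma choose_mem {Δ : ℕ} {h : Finset α → ℕ} (hh : (fun A => (h A : ℚ)) ∈ Dg α Δ) (n : ℕ) :
    (fun A => ((h A + n).choose n : ℚ)) ∈ Dg α (n * Δ) := by
  induction n with
  | zero => simpa using const_mem (α := α) 1 0
  | succ n ih =>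
    have h1 : (fun A => ((h A + (n + 1)).choose (n + 1) : ℚ))
        = (fun A => ((h A : ℚ) + (n + 1)) * (1 / ((n : ℚ) + 1))) * (fun A => ((h A + n).choose n : ℚ)) := by
      funext A
      have h2 := Nat.add_one_mul_choose_eq (h A + n) n
      have h3 : ((h A : ℚ) + n + 1) * ((h A + n).choose n : ℚ)
          = ((h A + n + 1).choose (n + 1) : ℚ) * ((n : ℚ) + 1) := by
        exact_mod_cast h2
      have h4 : ((n : ℚ) + 1) ≠ 0 := by positivity
      simp only [Pi.mul_apply]
      rw [show h A + (n + 1) = h A + n + 1 by ring]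
      field_simp
      linarith
    rw [h1, show (n + 1) * Δ = Δ + n * Δ by ring]
    refine mul_mem ?_ ih
    have h5 : (fun A => ((h A : ℚ) + (n + 1)) * (1 / ((n : ℚ) + 1)))
        = (1 / ((n : ℚ) + 1)) • ((fun A => (h A : ℚ)) + (fun _ => ((n : ℚ) + 1))) := by
      funext A
      simp only [Pi.smul_apply, Pi.add_apply, smul_eq_mul]
      ring
    rw [h5]
    exact Submodule.smul_mem _ _ (add_mem hh (const_mem _ _))

lemma lucas_ind (p : ℕ) [Fact p.Prime] (k : ℕ) : ∀ n : ℕ,
    ((n.choose (p ^ k - 1) : ℕ) : ZMod p) = if n % p ^ k = p ^ k - 1 then 1 else 0 := by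
  have hp : p.Prime := Fact.out
  have hp0 : 0 < p := hp.pos
  induction k with
  | zero => intro n; simp [Nat.mod_one]
  | succ k ih =>
    intro n
    have hpk : 0 < p ^ k := pow_pos hp0 k
    have hq : p ^ (k + 1) - 1 = (p - 1) + p * (p ^ k - 1) := by
      have h1 : p ^ (k + 1) = p * p ^ k := by ring
      have h2 : p * (p ^ k - 1) = p * p ^ k - p := by rw [Nat.mul_sub, mul_one]
      have h3 : p ≤ p * p ^ k := Nat.le_mul_of_pos_right p hpk
      rw [h1, h2]
      omega
    have hmod : (p ^ (k + 1) - 1) % p = p - 1 := by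
      rw [hq, Nat.add_mul_mod_self_left]
      exact Nat.mod_eq_of_lt (by omega)
    have hdiv : (p ^ (k + 1) - 1) / p = p ^ k - 1 := by
      rw [hq, Nat.add_mul_div_left _ _ hp0, Nat.div_eq_of_lt (by omega), zero_add]
    have hL := @Choose.choose_modEq_choose_mod_mul_choose_div_nat n (p ^ (k + 1) - 1) p _
    rw [hmod, hdiv] at hL
    have hL' := (ZMod.natCast_eq_natCast_iff _ _ p).2 hL
    rw [hL', Nat.cast_mul, ih (n / p)]
    have h1 : (((n % p).choose (p - 1) : ℕ) : ZMod p) = if n % p = p - 1 then 1 else 0 := by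
      split_ifs with h
      · rw [h]; simp
      · have h2 : n % p < p := Nat.mod_lt _ hp0
        rw [Nat.choose_eq_zero_of_lt (by omega)]
        simp
    rw [h1]
    have h3 : n % p ^ (k + 1) = n % p + p * (n / p % p ^ k) := by
      rw [show p ^ (k + 1) = p * p ^ k by ring, Nat.mod_mul]
    have h4 : n % p < p := Nat.mod_lt _ hp0
    have h5 : n / p % p ^ k < p ^ k := Nat.mod_lt _ hpk
    have h6 : (n % p ^ (k + 1) = p ^ (k + 1) - 1) ↔ (n % p = p - 1 ∧ n / p % p ^ k = p ^ k - 1) := by
      rw [h3, hq]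
      constructor
      · intro h
        have h7 := congrArg (fun t => t % p) h
        simp only [Nat.add_mul_mod_self_left] at h7
        rw [Nat.mod_eq_of_lt h4, Nat.mod_eq_of_lt (show p - 1 < p by omega)] at h7
        refine ⟨h7, ?_⟩
        rw [h7] at h
        exact Nat.eq_of_mul_eq_mul_left hp0 (Nat.add_left_cancel h)
      · rintro ⟨h7, h8⟩
        rw [h7, h8]
    by_cases h7 : n % p = p - 1 <;> by_cases h8 : n / p % p ^ k = p ^ k - 1 <;>
      simp [h6, h7, h8]

lemma ind (p : ℕ) [Fact p.Prime] (k x : ℕ) :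
    (((x + (p ^ k - 1)).choose (p ^ k - 1) : ℕ) : ZMod p) = if p ^ k ∣ x then 1 else 0 := by
  have hp : p.Prime := Fact.out
  rw [lucas_ind]
  have hpk : 0 < p ^ k := pow_pos hp.pos k
  congr 1
  rw [eq_iff_iff]
  constructor
  · intro h
    have h1 := Nat.div_add_mod (x + (p ^ k - 1)) (p ^ k)
    rw [h] at h1
    exact ⟨(x + (p ^ k - 1)) / p ^ k, by omega⟩
  · rintro ⟨c, rfl⟩
    rw [Nat.mul_add_mod]
    exact Nat.mod_eq_of_lt (by omega)

/-- the alternating number of the solutions of congruences of small degree is zero modulo `p` -/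
lemma cube_alt (p : ℕ) [Fact p.Prime] {κ : Type} [Fintype κ] (k : κ → ℕ)
    (h : κ → Finset α → ℕ) (Δ : ℕ)
    (hh : ∀ i, (fun A => (h i A : ℚ)) ∈ Dg α Δ) (K : Finset α)
    (hK : Δ * ∑ i, (p ^ k i - 1) < K.card) :
    ∑ γ ∈ K.powerset, (-1 : ZMod p) ^ γ.card * (if ∀ i, p ^ k i ∣ h i γ then 1 else 0) = 0 := by
  have h1 : (fun A => ∏ i, (((h i A + (p ^ k i - 1)).choose (p ^ k i - 1) : ℕ) : ℚ)) ∈
      Dg α (∑ i, (p ^ k i - 1) * Δ) :=
    prod_mem' univ _ _ fun i _ => choose_mem (hh i) _
  have h2 := alt K (by rw [← sum_mul, mul_comm]; exact hK) h1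
  have h3 : ∑ γ ∈ K.powerset, (-1 : ℤ) ^ γ.card *
      ∏ i, (((h i γ + (p ^ k i - 1)).choose (p ^ k i - 1) : ℕ) : ℤ) = 0 := by
    exact_mod_cast h2
  have h4 := congrArg (Int.cast : ℤ → ZMod p) h3
  push_cast at h4
  refine Eq.trans (sum_congr rfl fun γ _ => ?_) h4
  congr 1
  simp_rw [ind]
  rw [Finset.prod_ite_zero]
  simp

/-- a lift of a function of degree at most `Δ` with values modulo `q` -/
lemma lift {ι : Type} (q : ℕ) [NeZero q] (I : Finset ι) (s : ι → Finset α) (Δ : ℕ)
    (hs : ∀ i ∈ I, (s i).card ≤ Δ) (c : ι → ZMod q) (v : ZMod q) :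
    ∃ h : Finset α → ℕ, (fun A => (h A : ℚ)) ∈ Dg α Δ ∧
      ∀ A, q ∣ h A ↔ ∑ i ∈ I, (if s i ⊆ A then c i else 0) = v := by
  refine ⟨fun A => ∑ i ∈ I, (if s i ⊆ A then (c i).val else 0) + (-v).val, ?_, ?_⟩
  · have h1 : (fun A : Finset α => ((∑ i ∈ I, (if s i ⊆ A then (c i).val else 0) + (-v).val : ℕ) : ℚ))
        = (∑ i ∈ I, ((c i).val : ℚ) • mon (s i)) + (fun _ => ((-v).val : ℚ)) := by
      funext A
      push_cast
      simp only [Pi.add_apply, Finset.sum_apply, Pi.smul_apply, smul_eq_mul, mon]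
      congr 1
      refine sum_congr rfl fun i _ => ?_
      split_ifs <;> simp
    rw [h1]
    exact add_mem (Submodule.sum_mem _ fun i hi => Submodule.smul_mem _ _ (mon_mem (hs i hi)))
      (const_mem _ _)
  · intro A
    rw [← ZMod.natCast_eq_zero_iff]
    push_cast
    have h2 : ∑ i ∈ I, (if s i ⊆ A then (((c i).val : ℕ) : ZMod q) else 0)
        = ∑ i ∈ I, (if s i ⊆ A then c i else 0) := by
      refine sum_congr rfl fun i _ => ?_
      rw [ZMod.natCast_zmod_val]
    rw [h2, ZMod.natCast_zmod_val]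
    exact add_neg_eq_zero

/-- no fibre has exactly one point in a large cube -/
lemma not_one {ι : Type} (p : ℕ) [Fact p.Prime] {r : ℕ} (k : Fin r → ℕ) (I : Finset ι)
    (s : ι → Finset α) (Δ : ℕ) (hs : ∀ i ∈ I, (s i).card ≤ Δ) (c : ι → ∀ i : Fin r, ZMod (p ^ k i))
    (v : ∀ i : Fin r, ZMod (p ^ k i)) (K : Finset α) (hK : Δ * ∑ i, (p ^ k i - 1) < K.card)
    (γ₀ : Finset α) (h0 : γ₀ ⊆ K) (hv : ∑ i ∈ I, (if s i ⊆ γ₀ then c i else 0) = v) :
    ∃ γ ⊆ K, γ ≠ γ₀ ∧ ∑ i ∈ I, (if s i ⊆ γ then c i else 0) = v := by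
  have hp : p.Prime := Fact.out
  have hq : ∀ j, NeZero (p ^ k j) := fun j => ⟨(pow_pos hp.pos _).ne'⟩
  choose h hh hiff using fun j : Fin r =>
    @lift α _ ι (p ^ k j) (hq j) I s Δ hs (fun i => c i j) (v j)
  have hall : ∀ A, (∀ j, p ^ k j ∣ h j A) ↔ ∑ i ∈ I, (if s i ⊆ A then c i else 0) = v := by
    intro A
    rw [funext_iff]
    refine forall_congr' fun j => ?_
    rw [hiff, Finset.sum_apply]
    have : ∀ i, (if s i ⊆ A then c i else 0) j = if s i ⊆ A then c i j else 0 := by
      intro i; split_ifs <;> rfl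
    simp_rw [this]
  by_contra hcon
  push Not at hcon
  have h1 := cube_alt p k h Δ hh K hK
  rw [Finset.sum_eq_single γ₀] at h1
  · rw [if_pos ((hall γ₀).2 hv), mul_one] at h1
    have h2 : IsUnit ((-1 : ZMod p) ^ γ₀.card) := (isUnit_one.neg).pow _
    exact h2.ne_zero h1
  · intro γ hγ hne
    rw [if_neg, mul_zero]
    intro h3
    exact hcon γ (mem_powerset.1 hγ) hne ((hall γ).1 h3)
  · intro h3
    exact absurd (mem_powerset.2 h0) h3

/-- sets without isolated points in large cubes are large -/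
lemma density (Λ : ℕ) (V : Finset α → Prop) [DecidablePred V]
    (hV : ∀ B K : Finset α, Disjoint B K → K.card = Λ + 1 → ∀ γ₀ ⊆ K, V (B ∪ γ₀) →
      ∃ γ ⊆ K, γ ≠ γ₀ ∧ V (B ∪ γ)) :
    ∀ (n : ℕ) (U B : Finset α), U.card = n → Disjoint B U → (∃ γ ⊆ U, V (B ∪ γ)) →
      2 ^ U.card ≤ 2 ^ Λ * (U.powerset.filter fun γ => V (B ∪ γ)).card := by
  intro n
  induction n with
  | zero =>
    intro U B hU _ h
    obtain ⟨γ, hγ, h⟩ := h
    have : 0 < (U.powerset.filter fun γ => V (B ∪ γ)).card :=
      card_pos.2 ⟨γ, mem_filter.2 ⟨mem_powerset.2 hγ, h⟩⟩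
    rw [hU, pow_zero]
    exact Nat.succ_le_of_lt (Nat.mul_pos (by positivity) this)
  | succ n ih =>
    intro U B hU hBU hex
    obtain ⟨γ₀, hγ₀, h0⟩ := hex
    by_cases hsmall : U.card ≤ Λ
    · have : 0 < (U.powerset.filter fun γ => V (B ∪ γ)).card :=
        card_pos.2 ⟨γ₀, mem_filter.2 ⟨mem_powerset.2 hγ₀, h0⟩⟩
      calc 2 ^ U.card ≤ 2 ^ Λ := Nat.pow_le_pow_right (by norm_num) hsmall
        _ ≤ 2 ^ Λ * _ := Nat.le_mul_of_pos_right _ this
    push Not at hsmall
    -- a coordinate with both halves nonempty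
    obtain ⟨u, hu, γ₁, hγ₁, h1, hdiff⟩ : ∃ u ∈ U, ∃ γ₁ ⊆ U, V (B ∪ γ₁) ∧ ¬ (u ∈ γ₀ ↔ u ∈ γ₁) := by
      obtain ⟨K, hKU, hKc⟩ := exists_subset_card_eq (show Λ + 1 ≤ U.card by omega)
      have hB' : Disjoint (B ∪ (γ₀ \ K)) K := by
        rw [disjoint_union_left]
        exact ⟨disjoint_of_subset_right hKU hBU, sdiff_disjoint⟩
      obtain ⟨γ, hγK, hne, hVγ⟩ := hV (B ∪ (γ₀ \ K)) K hB' hKc (γ₀ ∩ K) inter_subset_right (by
        rw [union_assoc, sdiff_union_inter]; exact h0)
      obtain ⟨u, hu⟩ : ∃ u, ¬ (u ∈ γ ↔ u ∈ γ₀ ∩ K) := by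
        by_contra hcon
        push Not at hcon
        exact hne (Finset.ext hcon)
      have huK : u ∈ K := by
        by_contra huK
        apply hu
        constructor
        · intro h; exact absurd (hγK h) huK
        · intro h; exact absurd (mem_inter.1 h).2 huK
      refine ⟨u, hKU huK, (γ₀ \ K) ∪ γ, union_subset (sdiff_subset.trans hγ₀) (hγK.trans hKU), ?_, ?_⟩
      · rw [← union_assoc]; exact hVγ
      · intro hcon
        apply hu
        rw [mem_inter, hcon, mem_union, mem_sdiff]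
        tauto
    have hU' : (U.erase u).card = n := by rw [card_erase_of_mem hu, hU]; rfl
    have hB1 : Disjoint B (U.erase u) := disjoint_of_subset_right (erase_subset _ _) hBU
    have huB : u ∉ B := fun h => disjoint_left.1 hBU h hu
    have hB2 : Disjoint (insert u B) (U.erase u) := by
      rw [disjoint_insert_left]
      exact ⟨notMem_erase u U, hB1⟩
    have hhalf : (∃ γ ⊆ U.erase u, V (B ∪ γ)) ∧ (∃ γ ⊆ U.erase u, V (insert u B ∪ γ)) := by
      have key : ∀ γ, γ ⊆ U → V (B ∪ γ) →
          (u ∉ γ → ∃ γ' ⊆ U.erase u, V (B ∪ γ')) ∧ (u ∈ γ → ∃ γ' ⊆ U.erase u, V (insert u B ∪ γ')) := by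
        intro γ hγ hVγ
        constructor
        · intro hu'
          exact ⟨γ, subset_erase.2 ⟨hγ, hu'⟩, hVγ⟩
        · intro hu'
          refine ⟨γ.erase u, erase_subset_erase u hγ, ?_⟩
          have : insert u B ∪ γ.erase u = B ∪ γ := by
            ext x
            simp only [mem_union, mem_insert, mem_erase]
            by_cases hx : x = u
            · subst hx; simp [hu']
            · simp [hx]
          rw [this]; exact hVγ
      by_cases hu0 : u ∈ γ₀
      · have hu1 : u ∉ γ₁ := fun h => hdiff ⟨fun _ => h, fun _ => hu0⟩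
        exact ⟨(key γ₁ hγ₁ h1).1 hu1, (key γ₀ hγ₀ h0).2 hu0⟩
      · have hu1 : u ∈ γ₁ := by
          by_contra h
          exact hdiff ⟨fun h' => absurd h' hu0, fun h' => absurd h' h⟩
        exact ⟨(key γ₀ hγ₀ h0).1 hu0, (key γ₁ hγ₁ h1).2 hu1⟩
    have i1 := ih (U.erase u) B hU' hB1 hhalf.1
    have i2 := ih (U.erase u) (insert u B) hU' hB2 hhalf.2
    have hcard : (U.powerset.filter fun γ => V (B ∪ γ)).card
        = ((U.erase u).powerset.filter fun γ => V (B ∪ γ)).card
          + ((U.erase u).powerset.filter fun γ => V (insert u B ∪ γ)).card := by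
      have hUe : U = insert u (U.erase u) := (insert_erase hu).symm
      rw [hUe, powerset_insert, filter_union, card_union_of_disjoint]
      · congr 1
        · rw [← hUe]
        · rw [← hUe, filter_image, card_image_of_injOn]
          · congr 1
            refine filter_congr fun γ _ => ?_
            rw [union_insert, insert_union]
          · intro a ha b hb hab
            rw [mem_coe, mem_filter, mem_powerset] at ha hb
            have ha' : u ∉ a := fun h => notMem_erase u U (ha.1 h)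
            have hb' : u ∉ b := fun h => notMem_erase u U (hb.1 h)
            have := congrArg (fun t => erase t u) hab
            simpa [erase_insert ha', erase_insert hb'] using this
      · rw [Finset.disjoint_left]
        intro x hx hx'
        rw [mem_filter, mem_powerset] at hx
        rw [mem_filter, mem_image] at hx'
        obtain ⟨⟨y, -, rfl⟩, -⟩ := hx'
        exact notMem_erase u U (hx.1 (mem_insert_self u y))
    rw [hcard, mul_add, hU, pow_succ, mul_two]
    rw [hU'] at i1 i2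
    exact Nat.add_le_add i1 i2

end Pool.Agent.N389.PH
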