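import Pool.Agent.N389.PH.Real

/-! # Dense subfamilies of families of small real degree -/

set_option autoImplicit false

namespace Pool.Agent.N389.PH.Exact

open Finset

section

variable {E : Type} [Fintype E] [DecidableEq E]

lemma split_sum (K : Finset E) (G : Finset E → ℚ) :
    ∑ A : Finset E, G A = ∑ B ∈ Kᶜ.powerset, ∑ X ∈ K.powerset, G (B ∪ X) := by
  rw [← sum_product']
  refine sum_nbij' (fun A => (A \ K, A ∩ K)) (fun p => p.1 ∪ p.2) ?_ ?_ ?_ ?_ ?_
  · intro A _
    rw [mem_product, mem_powerset, mem_powerset]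
    refine ⟨fun x hx => ?_, inter_subset_right⟩
    rw [mem_compl]
    exact (mem_sdiff.1 hx).2
  · intro p _
    exact mem_univ _
  · intro A _
    exact sdiff_union_inter A K
  · rintro ⟨B, X⟩ hp
    rw [mem_product, mem_powerset, mem_powerset] at hp
    obtain ⟨hB, hX⟩ := hp
    simp only at hB hX
    have hd : Disjoint B K := by
      rw [Finset.disjoint_left]
      intro x hx hxK
      exact (mem_compl.1 (hB hx)) hxK
    simp only [Prod.mk.injEq]
    constructor
    · rw [union_sdiff_distrib, sdiff_eq_empty_iff_subset.2 hX, union_empty, hd.sdiff_eq_left]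
    · rw [union_inter_distrib_right, disjoint_iff_inter_eq_empty.1 hd, empty_union,
        inter_eq_left.2 hX]
  · intro A _
    simp only
    rw [sdiff_union_inter]

/-- the spectral inequality for the whole cube and some of the directions -/
lemma spec_all (K : Finset E) (L : ℕ) (c : Finset E → ℚ) :
    ((K.card : ℚ) - 2 * L) * ∑ A : Finset E, poly L c A ^ 2 ≤
      2 * ∑ A : Finset E, ∑ x ∈ K \ A, poly L c A * poly L c (insert x A) := by
  rw [split_sum K, split_sum K, mul_sum, mul_sum]
  refine sum_le_sum fun B hB => ?_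
  rw [mem_powerset] at hB
  have hd : Disjoint B K := by
    rw [Finset.disjoint_left]
    intro x hx hxK
    exact (mem_compl.1 (hB hx)) hxK
  have hmem : (fun X => poly L c (B ∪ X)) ∈ Lt E (L + 1) := by
    have h1 : (fun X => poly L c (B ∪ X)) = ∑ T ∈ univ.filter (fun T : Finset E => T.card ≤ L),
        c T • mon (T \ B) := by
      funext X
      rw [rep', Finset.sum_apply]
      refine sum_congr rfl fun T _ => ?_
      rw [Pi.smul_apply, smul_eq_mul, mon]
      split_ifs <;> simp
    rw [h1]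
    refine Submodule.sum_mem _ fun T hT => Submodule.smul_mem _ _ (mon_lt ?_)
    rw [mem_filter] at hT
    exact Nat.lt_succ_of_le ((card_le_card sdiff_subset).trans hT.2)
  have h2 := spec K (L + 1) _ hmem
  have h3 : ((K.card : ℚ) + 2 - 2 * ((L + 1 : ℕ) : ℚ)) = (K.card : ℚ) - 2 * L := by
    push_cast; ring
  rw [h3] at h2
  refine h2.trans (le_of_eq ?_)
  congr 1
  refine sum_congr rfl fun X _ => ?_
  have h4 : K \ (B ∪ X) = K \ X := by
    ext x
    simp only [mem_sdiff, mem_union, not_or]
    constructor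
    · rintro ⟨h1, _, h2⟩; exact ⟨h1, h2⟩
    · rintro ⟨h1, h2⟩; exact ⟨h1, fun h3 => Finset.disjoint_left.1 hd h3 h1, h2⟩
  rw [h4]
  refine sum_congr rfl fun x _ => ?_
  rw [union_insert]

end

/-- subfamilies of relative density more than one half -/
theorem dense {d : ℕ} (hd : 1 ≤ d) (L N : ℕ) (c : Finset (Fin d → Fin N) → ℚ)
    (F S : Finset (Finset (Fin d → Fin N)))
    (hF : ∀ A, poly L c A = if A ∈ F then 1 else 0)
    (hS : 2 * N * (F \ S).card < (N - 2 * L) * F.card) : Good S := by
  classical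
  by_contra hgood
  obtain ⟨e, he⟩ : ∃ e : Fin N → (Fin d → Fin N), e = fun i _ => i := ⟨_, rfl⟩
  have heinj : Function.Injective e := by
    intro i j hij
    rw [he] at hij
    exact congrFun hij ⟨0, hd⟩
  have hpw : ∀ i, pw d {i} = {e i} := by
    intro i
    ext x
    rw [mem_pw, mem_singleton, he]
    constructor
    · intro h; funext l; exact mem_singleton.1 (h l)
    · intro h l; rw [h]; exact mem_singleton_self _
  obtain ⟨K, hK⟩ : ∃ K, K = (univ : Finset (Fin N)).image e := ⟨_, rfl⟩
  have hKc : K.card = N := by rw [hK, card_image_of_injective _ heinj, card_univ, Fintype.card_fin]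
  obtain ⟨P, hP⟩ : ∃ P, P = (F ×ˢ K).filter fun q => q.2 ∉ q.1 ∧ insert q.2 q.1 ∈ F := ⟨_, rfl⟩
  -- many pairs
  have h1 := spec_all K L c
  have h2 : ∑ A : Finset (Fin d → Fin N), poly L c A ^ 2 = F.card := by
    rw [card_eq_sum_ones, Nat.cast_sum, ← sum_filter_add_sum_filter_not univ (fun A => A ∈ F)]
    have e1 : ∑ A ∈ univ.filter (fun A : Finset (Fin d → Fin N) => ¬ A ∈ F), poly L c A ^ 2 = 0 := by
      refine sum_eq_zero fun A hA => ?_
      rw [hF, if_neg (mem_filter.1 hA).2]; norm_num
    rw [e1, add_zero]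
    have e2 : univ.filter (fun A : Finset (Fin d → Fin N) => A ∈ F) = F := by
      ext A; simp
    rw [e2]
    refine sum_congr rfl fun A hA => ?_
    rw [hF, if_pos hA]; norm_num
  have h3 : ∑ A : Finset (Fin d → Fin N), ∑ x ∈ K \ A, poly L c A * poly L c (insert x A)
      = P.card := by
    have e1 : ∀ A : Finset (Fin d → Fin N), ∑ x ∈ K \ A, poly L c A * poly L c (insert x A)
        = (((K.filter fun x => A ∈ F ∧ x ∉ A ∧ insert x A ∈ F).card : ℕ) : ℚ) := by
      intro A
      rw [card_filter, Nat.cast_sum, sdiff_eq_filter, sum_filter]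
      refine sum_congr rfl fun x _ => ?_
      rw [hF, hF]
      by_cases a1 : x ∈ A <;> by_cases a2 : A ∈ F <;> by_cases a3 : insert x A ∈ F <;>
        simp [a1, a2, a3]
    rw [sum_congr rfl fun A _ => e1 A, ← Nat.cast_sum]
    congr 1
    rw [hP, ← card_sigma]
    refine card_nbij' (fun q => (q.1, q.2)) (fun q => ⟨q.1, q.2⟩) ?_ ?_ ?_ ?_
    · rintro ⟨A, x⟩ hq
      simp only [coe_sigma, Set.mem_sigma_iff, mem_coe, mem_univ, mem_filter, true_and,
        mem_product] at hq ⊢
      exact ⟨⟨hq.2.1, hq.1⟩, hq.2.2⟩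
    · rintro ⟨A, x⟩ hq
      simp only [coe_sigma, Set.mem_sigma_iff, mem_coe, mem_univ, mem_filter, true_and,
        mem_product] at hq ⊢
      exact ⟨hq.1.2, hq.1.1, hq.2⟩
    · rintro ⟨A, x⟩ _; rfl
    · rintro ⟨A, x⟩ _; rfl
  rw [h2, h3, hKc] at h1
  -- few pairs
  have h4 : P.card ≤ (F \ S).card * N := by
    have h40 : (F \ S).card * N = ((F \ S) ×ˢ K).card := by rw [card_product, hKc]
    rw [h40]
    refine card_le_card_of_injOn (fun q => if q.1 ∈ S then (insert q.2 q.1, q.2) else q) ?_ ?_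
    · rintro ⟨A, x⟩ hq
      rw [mem_coe, hP, mem_filter, mem_product] at hq
      obtain ⟨⟨a1, a2⟩, a3, a4⟩ := hq
      simp only at a1 a2 a3 a4
      rw [mem_coe, mem_product]
      by_cases hA : A ∈ S
      · simp only [if_pos hA]
        refine ⟨mem_sdiff.2 ⟨a4, fun h5 => ?_⟩, a2⟩
        obtain ⟨i, -, rfl⟩ := mem_image.1 (hK ▸ a2)
        refine hgood ⟨A, hA, {i}, singleton_nonempty i, ?_, ?_⟩
        · rw [hpw, disjoint_singleton_right]; exact a3
        · rw [hpw, union_comm, ← insert_eq]; exact h5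
      · simp only [if_neg hA]
        exact ⟨mem_sdiff.2 ⟨a1, hA⟩, a2⟩
    · rintro ⟨A, x⟩ hq ⟨B, y⟩ hq' hAB
      rw [mem_coe, hP, mem_filter, mem_product] at hq hq'
      simp only at hq hq' hAB
      by_cases hA : A ∈ S <;> by_cases hB : B ∈ S
      · rw [if_pos hA, if_pos hB, Prod.mk.injEq] at hAB
        obtain ⟨b1, b2⟩ := hAB
        subst b2
        have := congrArg (fun Z => Z.erase x) b1
        simp only [erase_insert hq.2.1, erase_insert hq'.2.1] at this
        rw [this]
      · rw [if_pos hA, if_neg hB, Prod.mk.injEq] at hAB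
        obtain ⟨b1, b2⟩ := hAB
        subst b2
        exact absurd (b1 ▸ mem_insert_self x A) hq'.2.1
      · rw [if_neg hA, if_pos hB, Prod.mk.injEq] at hAB
        obtain ⟨b1, b2⟩ := hAB
        subst b2
        exact absurd (b1 ▸ mem_insert_self x B) hq.2.1
      · rw [if_neg hA, if_neg hB] at hAB
        exact hAB
  -- conclusion
  rcases Nat.lt_or_ge (2 * L) N with h5 | h5
  · have h6 : (((N - 2 * L : ℕ) : ℕ) : ℚ) = (N : ℚ) - 2 * L := by
      rw [Nat.cast_sub h5.le]; push_cast; ring
    rw [← h6] at h1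
    have h7 : (N - 2 * L) * F.card ≤ 2 * P.card := by exact_mod_cast h1
    nlinarith
  · rw [Nat.sub_eq_zero_of_le h5, zero_mul] at hS
    exact absurd hS (by omega)

end Pool.Agent.N389.PH.Exact
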