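import Pool.Agent.H720R3.Blocks
import Pool.Agent.N389.PH.Deg

/-! # Families of small degree are good -/

set_option autoImplicit false

namespace Pool.Agent.N389.PH.Exact

open Finset

/-- all tuples with entries in `γ` -/
def pw (d : ℕ) {N : ℕ} (γ : Finset (Fin N)) : Finset (Fin d → Fin N) :=
  Fintype.piFinset (fun _ : Fin d => γ)

lemma mem_pw {d N : ℕ} {γ : Finset (Fin N)} {x : Fin d → Fin N} : x ∈ pw d γ ↔ ∀ i, x i ∈ γ := by
  rw [pw, Fintype.mem_piFinset]

lemma card_pw {d N : ℕ} (γ : Finset (Fin N)) : (pw d γ).card = γ.card ^ d := by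
  rw [pw, Fintype.card_piFinset]; simp

lemma pw_mono {d N : ℕ} {γ γ' : Finset (Fin N)} (h : γ ⊆ γ') : pw d γ ⊆ pw d γ' := by
  intro x hx
  rw [mem_pw] at hx ⊢
  exact fun i => h (hx i)

lemma pw_empty {d N : ℕ} (hd : 1 ≤ d) : pw d (∅ : Finset (Fin N)) = ∅ := by
  ext x
  simp only [mem_pw, notMem_empty, iff_false]
  intro h
  exact h ⟨0, hd⟩

/-- `A ↦ ∑ c T`, the sum over the subsets `T` of `A` with at most `D` elements -/
def poly {E G : Type} [AddCommGroup G] (D : ℕ) (c : Finset E → G) (A : Finset E) : G :=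
  ∑ T ∈ A.powerset.filter (fun T => T.card ≤ D), c T

/-- good families -/
def Good {N d : ℕ} (S : Finset (Finset (Fin d → Fin N))) : Prop :=
  ∃ A ∈ S, ∃ γ : Finset (Fin N), γ.Nonempty ∧ Disjoint A (pw d γ) ∧ A ∪ pw d γ ∈ S

/-- the main step -/
lemma core {d N a b : ℕ} (hd : 1 ≤ d) (F S : Finset (Finset (Fin d → Fin N)))
    (H1 : ∀ B X₀ : Finset (Fin d → Fin N), B ∪ X₀ ∈ F → ∃ X ⊆ X₀, X.card ≤ a ∧ B ∪ X ∈ F)
    (H2 : ∀ A ∈ F, ∀ K : Finset (Fin N), b ≤ K.card →
      ∃ γ ⊆ K, γ.Nonempty ∧ A ∪ pw d γ ∈ F)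
    (hN : a + b ≤ N) (hS : 2 ^ ((a + b) ^ d) * (F \ S).card < F.card) : Good S := by
  classical
  obtain ⟨K, -, hK⟩ := exists_subset_card_eq (s := (univ : Finset (Fin N))) (n := a + b)
    (by rw [card_univ, Fintype.card_fin]; exact hN)
  by_contra hgood
  have key : ∀ A ∈ F, ∃ A' ∈ F \ S, A' \ pw d K = A \ pw d K := by
    intro A hA
    obtain ⟨X, hX, hXa, hBX⟩ := H1 (A \ pw d K) (A ∩ pw d K) (by
      rw [sdiff_union_inter]; exact hA)
    obtain ⟨γ, hγ, hne, hU⟩ := H2 _ hBX (K \ X.image fun x => x ⟨0, hd⟩) (by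
      have h1 := le_card_sdiff (X.image fun x => x ⟨0, hd⟩) K
      have h2 : (X.image fun x => x ⟨0, hd⟩).card ≤ a := card_image_le.trans hXa
      omega)
    have hXK : X ⊆ pw d K := hX.trans inter_subset_right
    have hγK : pw d γ ⊆ pw d K := pw_mono (hγ.trans sdiff_subset)
    have e1 : (A \ pw d K ∪ X) \ pw d K = A \ pw d K := by
      rw [union_sdiff_distrib, sdiff_eq_empty_iff_subset.2 hXK, union_empty, Finset.sdiff_idem]
    have e2 : (A \ pw d K ∪ X ∪ pw d γ) \ pw d K = A \ pw d K := by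
      rw [union_sdiff_distrib, e1, sdiff_eq_empty_iff_subset.2 hγK, union_empty]
    have hdis : Disjoint (A \ pw d K ∪ X) (pw d γ) := by
      rw [disjoint_union_left]
      refine ⟨disjoint_of_subset_right hγK sdiff_disjoint, ?_⟩
      rw [Finset.disjoint_left]
      intro x hx hx'
      rw [mem_pw] at hx'
      have := hγ (hx' ⟨0, hd⟩)
      rw [mem_sdiff] at this
      exact this.2 (mem_image_of_mem _ hx)
    by_contra hcon
    push Not at hcon
    have h1 : A \ pw d K ∪ X ∈ S := by
      by_contra h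
      exact hcon _ (mem_sdiff.2 ⟨hBX, h⟩) e1
    have h2 : A \ pw d K ∪ X ∪ pw d γ ∈ S := by
      by_contra h
      exact hcon _ (mem_sdiff.2 ⟨hU, h⟩) e2
    exact hgood ⟨_, h1, γ, hne, hdis, h2⟩
  choose! g hg1 hg2 using key
  have hcard : F.card ≤ (F \ S).card * (pw d K).powerset.card := by
    rw [← card_product]
    refine card_le_card_of_injOn (fun A => (g A, A ∩ pw d K)) ?_ ?_
    · intro A hA
      rw [mem_coe, mem_product, mem_powerset]
      exact ⟨hg1 A hA, inter_subset_right⟩
    · intro A hA B hB hAB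
      simp only [Prod.mk.injEq] at hAB
      have h1 := hg2 A hA
      have h2 := hg2 B hB
      rw [hAB.1] at h1
      rw [← sdiff_union_inter A (pw d K), ← h1, h2, hAB.2, sdiff_union_inter]
  rw [card_powerset, card_pw, hK, mul_comm] at hcard
  omega

section rep

variable {d N D : ℕ} {G : Type} [AddCommGroup G]

open Classical in
/-- the polynomial on the sets `A ∪ γ^d` -/
lemma rep (c : Finset (Fin d → Fin N) → G) (A : Finset (Fin d → Fin N)) (γ : Finset (Fin N)) :
    poly D c (A ∪ pw d γ) =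
      ∑ X ∈ univ.filter (fun X : Finset (Fin d → Fin N) => X.card ≤ D),
        (if ((X \ A).biUnion fun x => univ.image x) ⊆ γ then c X else 0) := by
  rw [poly, ← sum_filter]
  refine sum_congr ?_ fun _ _ => rfl
  refine Finset.ext fun X => ?_
  rw [mem_filter, mem_filter, mem_filter, mem_powerset]
  have hiff : X ⊆ A ∪ pw d γ ↔ (X \ A).biUnion (fun x => univ.image x) ⊆ γ := by
    constructor
    · intro h y hy
      rw [mem_biUnion] at hy
      obtain ⟨x, hx, hy⟩ := hy
      rw [mem_sdiff] at hx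
      rw [mem_image] at hy
      obtain ⟨i, -, rfl⟩ := hy
      have := (mem_union.1 (h hx.1)).resolve_left hx.2
      rw [mem_pw] at this
      exact this i
    · intro h x hx
      by_cases hxA : x ∈ A
      · exact mem_union_left _ hxA
      · refine mem_union_right _ (mem_pw.2 fun i => h ?_)
        rw [mem_biUnion]
        exact ⟨x, mem_sdiff.2 ⟨hx, hxA⟩, mem_image_of_mem _ (mem_univ i)⟩
  rw [hiff]
  constructor
  · rintro ⟨h1, h2⟩; exact ⟨⟨mem_univ _, h2⟩, h1⟩
  · rintro ⟨⟨_, h1⟩, h2⟩; exact ⟨h2, h1⟩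

open Classical in
lemma rep_card (A X : Finset (Fin d → Fin N)) (hX : X.card ≤ D) :
    ((X \ A).biUnion fun x => univ.image x).card ≤ d * D := by
  calc ((X \ A).biUnion fun x => univ.image x).card
      ≤ ∑ x ∈ X \ A, (univ.image x).card := card_biUnion_le
    _ ≤ ∑ _x ∈ X \ A, d := sum_le_sum fun x _ => by
        calc (univ.image x).card ≤ (univ : Finset (Fin d)).card := card_image_le
          _ = d := by simp
    _ = (X \ A).card * d := by rw [sum_const, smul_eq_mul]
    _ ≤ D * d := Nat.mul_le_mul_right d ((card_le_card sdiff_subset).trans hX)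
    _ = d * D := mul_comm _ _

end rep

section local_

variable {E : Type} [Fintype E] [DecidableEq E] {D : ℕ} {G : Type} [AddCommGroup G]

/-- the polynomial on the sets `B ∪ γ` -/
lemma rep' (c : Finset E → G) (B γ : Finset E) :
    poly D c (B ∪ γ) =
      ∑ X ∈ univ.filter (fun X : Finset E => X.card ≤ D), (if X \ B ⊆ γ then c X else 0) := by
  rw [poly, ← sum_filter]
  refine sum_congr ?_ fun _ _ => rfl
  refine Finset.ext fun X => ?_
  rw [mem_filter, mem_filter, mem_filter, mem_powerset]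
  have hiff : X ⊆ B ∪ γ ↔ X \ B ⊆ γ := by
    constructor
    · intro h x hx
      rw [mem_sdiff] at hx
      exact (mem_union.1 (h hx.1)).resolve_left hx.2
    · intro h x hx
      by_cases hxB : x ∈ B
      · exact mem_union_left _ hxB
      · exact mem_union_right _ (h (mem_sdiff.2 ⟨hx, hxB⟩))
  rw [hiff]
  constructor
  · rintro ⟨h1, h2⟩; exact ⟨⟨mem_univ _, h2⟩, h1⟩
  · rintro ⟨⟨_, h1⟩, h2⟩; exact ⟨h2, h1⟩

/-- the polynomial on the sets `B ∪ (X \ γ)` -/
lemma rep'' (c : Finset E → G) (B X γ : Finset E) :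
    poly D c (B ∪ (X \ γ)) =
      ∑ t ∈ (univ.filter fun T : Finset E => T.card ≤ D).sigma fun T => (T \ B).powerset,
        (if t.2 ⊆ γ then (if t.1 \ B ⊆ X then (-1 : ℤ) ^ t.2.card • c t.1 else 0) else 0) := by
  rw [rep', sum_sigma]
  refine sum_congr rfl fun T _ => ?_
  by_cases hX : T \ B ⊆ X
  · simp only [if_pos hX]
    have h1 : T \ B ⊆ X \ γ ↔ (T \ B) ∩ γ = ∅ := by
      rw [subset_sdiff, disjoint_iff_inter_eq_empty]
      exact and_iff_right hX
    have h2 : ∑ U ∈ (T \ B).powerset, (if U ⊆ γ then (-1 : ℤ) ^ U.card • c T else 0)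
        = (∑ U ∈ ((T \ B) ∩ γ).powerset, (-1 : ℤ) ^ U.card) • c T := by
      rw [sum_smul, ← sum_filter]
      refine sum_congr ?_ fun _ _ => rfl
      ext U
      rw [mem_filter, mem_powerset, mem_powerset, subset_inter_iff]
    rw [h2, sum_powerset_neg_one_pow_card]
    by_cases h3 : (T \ B) ∩ γ = ∅
    · rw [if_pos (h1.2 h3), if_pos h3, one_smul]
    · rw [if_neg (fun h => h3 (h1.1 h)), if_neg h3, zero_smul]
  · rw [if_neg (fun h => hX (h.trans sdiff_subset))]
    simp [hX]

omit [Fintype E] in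
/-- alternating sums of functions of small degree vanish -/
lemma alt {ι : Type} (I : Finset ι) (s : ι → Finset E) (c : ι → G) (K : Finset E)
    (h : ∀ i ∈ I, (s i).card < K.card) :
    ∑ γ ∈ K.powerset, (-1 : ℤ) ^ γ.card • (∑ i ∈ I, if s i ⊆ γ then c i else 0) = 0 := by
  simp_rw [smul_sum]
  rw [sum_comm]
  refine sum_eq_zero fun i hi => ?_
  obtain ⟨u, huK, huT⟩ : ∃ u ∈ K, u ∉ s i := by
    by_contra hcon
    push Not at hcon
    have := card_le_card (show K ⊆ s i from hcon)
    have := h i hi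
    omega
  have h1 : K = insert u (K.erase u) := (insert_erase huK).symm
  rw [h1, sum_powerset_insert (notMem_erase u K), ← sum_add_distrib]
  refine sum_eq_zero fun t ht => ?_
  have hut : u ∉ t := fun h => notMem_erase u K (mem_powerset.1 ht h)
  have h2 : s i ⊆ insert u t ↔ s i ⊆ t := by
    constructor
    · intro h x hx
      rcases mem_insert.1 (h hx) with h3 | h3
      · exact absurd (h3 ▸ hx) huT
      · exact h3
    · intro h x hx
      exact mem_insert_of_mem (h hx)
  rw [if_congr h2 rfl rfl, card_insert_of_notMem hut, pow_succ]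
  split_ifs <;> simp

end local_

/-- supports of functions of small degree -/
theorem support {d : ℕ} (hd : 1 ≤ d) {M : Type} [AddCommGroup M] (L N : ℕ)
    (hN : (d + 1) * L < N) (c : Finset (Fin d → Fin N) → M)
    (F S : Finset (Finset (Fin d → Fin N))) (hF : ∀ A, A ∈ F ↔ poly L c A ≠ 0)
    (hS : 2 ^ (((d + 1) * L + 1) ^ d) * (F \ S).card < F.card) : Good S := by
  classical
  refine core (a := L) (b := d * L + 1) hd F S ?_ ?_ (by linarith) ?_
  · intro B X₀ h
    obtain ⟨X, hX, hmin⟩ := exists_min_image (X₀.powerset.filter fun X => B ∪ X ∈ F) card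
      ⟨X₀, mem_filter.2 ⟨mem_powerset_self X₀, h⟩⟩
    rw [mem_filter, mem_powerset] at hX
    refine ⟨X, hX.1, ?_, hX.2⟩
    by_contra hlt
    push Not at hlt
    have h1 := alt (univ.filter fun X : Finset (Fin d → Fin N) => X.card ≤ L) (fun T => T \ B) c X
      (fun T hT => ((card_le_card sdiff_subset).trans (mem_filter.1 hT).2).trans_lt hlt)
    simp_rw [← rep'] at h1
    rw [sum_eq_single_of_mem X (mem_powerset_self X)] at h1
    · have h2 := (hF _).1 hX.2
      rcases neg_one_pow_eq_or ℤ X.card with h3 | h3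
      · rw [h3, one_smul] at h1; exact h2 h1
      · rw [h3, neg_smul, one_smul, neg_eq_zero] at h1; exact h2 h1
    · intro γ hγ hne
      rw [mem_powerset] at hγ
      have h2 : poly L c (B ∪ γ) = 0 := by
        by_contra h3
        have h4 := hmin γ (mem_filter.2 ⟨mem_powerset.2 (hγ.trans hX.1), (hF _).2 h3⟩)
        exact hne (eq_of_subset_of_card_le hγ h4)
      rw [h2, smul_zero]
  · intro A hA K hK
    by_contra hcon
    push Not at hcon
    have h1 := alt (univ.filter fun X : Finset (Fin d → Fin N) => X.card ≤ L)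
      (fun X => (X \ A).biUnion fun x => univ.image x) c K
      (fun T hT => (rep_card A T (mem_filter.1 hT).2).trans_lt (by omega))
    simp_rw [← rep] at h1
    rw [sum_eq_single_of_mem ∅ (empty_mem_powerset K)] at h1
    · rw [card_empty, pow_zero, one_smul, pw_empty hd, union_empty] at h1
      exact (hF _).1 hA h1
    · intro γ hγ hne
      rw [mem_powerset] at hγ
      have h2 : poly L c (A ∪ pw d γ) = 0 := by
        by_contra h3
        exact hcon γ hγ (nonempty_iff_ne_empty.2 hne) ((hF _).2 h3)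
      rw [h2, smul_zero]
  · have : L + (d * L + 1) = (d + 1) * L + 1 := by ring
    rw [this]; exact hS

/-- families decided by polynomials with values in a finite abelian `p`-group -/
theorem pgroup {d : ℕ} (hd : 1 ≤ d) (p : ℕ) [Fact p.Prime] {r : ℕ} (k : Fin r → ℕ) (D L N : ℕ)
    (hL : L = D * ∑ i, (p ^ k i - 1)) (hN : (d + 1) * L < N)
    (c : Finset (Fin d → Fin N) → ∀ i : Fin r, ZMod (p ^ k i))
    (V : Set (∀ i : Fin r, ZMod (p ^ k i)))
    (F S : Finset (Finset (Fin d → Fin N))) (hF : ∀ A, A ∈ F ↔ poly D c A ∈ V)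
    (hS : 2 ^ (((d + 1) * L + 1) ^ d) * (F \ S).card < F.card) : Good S := by
  classical
  refine core (a := L) (b := d * L + 1) hd F S ?_ ?_ (by linarith) ?_
  · intro B X₀ h
    obtain ⟨X, hX, hmin⟩ := exists_min_image
      (X₀.powerset.filter fun X => poly D c (B ∪ X) = poly D c (B ∪ X₀)) card
      ⟨X₀, mem_filter.2 ⟨mem_powerset_self X₀, rfl⟩⟩
    rw [mem_filter, mem_powerset] at hX
    refine ⟨X, hX.1, ?_, (hF _).2 (by rw [hX.2]; exact (hF _).1 h)⟩
    by_contra hlt
    push Not at hlt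
    obtain ⟨γ, hγ, hne, hv⟩ := not_one p k
      (univ.filter fun X : Finset (Fin d → Fin N) => X.card ≤ D) (fun T => T \ B) D
      (fun T hT => (card_le_card sdiff_subset).trans (mem_filter.1 hT).2) c
      (poly D c (B ∪ X₀)) X (by rw [← hL]; exact hlt) X Subset.rfl (by rw [← rep', hX.2])
    rw [← rep'] at hv
    have h4 := hmin γ (mem_filter.2 ⟨mem_powerset.2 (hγ.trans hX.1), hv⟩)
    exact hne (eq_of_subset_of_card_le hγ h4)
  · intro A hA K hK
    obtain ⟨γ, hγ, hne, hv⟩ := not_one p k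
      (univ.filter fun X : Finset (Fin d → Fin N) => X.card ≤ D)
      (fun X => (X \ A).biUnion fun x => univ.image x) (d * D)
      (fun T hT => rep_card A T (mem_filter.1 hT).2) c (poly D c A) K
      (by rw [mul_assoc, ← hL]; omega) ∅ (empty_subset _)
      (by rw [← rep, pw_empty hd, union_empty])
    rw [← rep] at hv
    exact ⟨γ, hγ, nonempty_iff_ne_empty.2 hne, (hF _).2 (by rw [hv]; exact (hF _).1 hA)⟩
  · have : L + (d * L + 1) = (d + 1) * L + 1 := by ring
    rw [this]; exact hS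

/-- families decided by polynomials with values in any finite abelian group -/
theorem group {d : ℕ} (hd : 1 ≤ d) (D : ℕ) (G : Type) [AddCommGroup G] [Fintype G] :
    ∃ m : ℕ, ∀ N : ℕ, m ≤ N → ∀ (c : Finset (Fin d → Fin N) → G) (V : Set G)
      (F S : Finset (Finset (Fin d → Fin N))), (∀ A, A ∈ F ↔ poly D c A ∈ V) →
        2 ^ (m ^ d) * (F \ S).card < F.card → Good S := by
  classical
  obtain ⟨a, ha⟩ := Pool.Agent.H720R3.exists_return D G
  obtain ⟨b, hb⟩ := Pool.Agent.H720R3.exists_return (d * D) G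
  refine ⟨a + b, fun N hN c V F S hF hS => core (a := a) (b := b) hd F S ?_ ?_ hN hS⟩
  · intro B X₀ h
    obtain ⟨X, hX, hmin⟩ := exists_min_image
      (X₀.powerset.filter fun X => poly D c (B ∪ X) = poly D c (B ∪ X₀)) card
      ⟨X₀, mem_filter.2 ⟨mem_powerset_self X₀, rfl⟩⟩
    rw [mem_filter, mem_powerset] at hX
    refine ⟨X, hX.1, ?_, (hF _).2 (by rw [hX.2]; exact (hF _).1 h)⟩
    by_contra hlt
    push Not at hlt
    obtain ⟨γ, hγ, hne, hv⟩ := ha (Fin d → Fin N) X (fun γ => poly D c (B ∪ (X \ γ))) hlt.le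
      (Pool.Agent.H720R3.deg_of_sum
        ((univ.filter fun T : Finset (Fin d → Fin N) => T.card ≤ D).sigma
          fun T => (T \ B).powerset)
        (fun t : (_ : Finset (Fin d → Fin N)) × Finset (Fin d → Fin N) => t.2)
        (fun t => if t.1 \ B ⊆ X then (-1 : ℤ) ^ t.2.card • c t.1 else 0) (fun t ht => by
          rw [mem_sigma, mem_filter, mem_powerset] at ht
          exact (card_le_card (ht.2.trans sdiff_subset)).trans ht.1.2) _ _
        (fun γ _ => rep'' c B X γ))
    rw [sdiff_empty, hX.2] at hv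
    have h4 := hmin (X \ γ) (mem_filter.2 ⟨mem_powerset.2 (sdiff_subset.trans hX.1), hv⟩)
    have h5 := card_sdiff_of_subset hγ
    have h6 := card_pos.2 hne
    have h7 := card_le_card hγ
    omega
  · intro A hA K hK
    obtain ⟨γ, hγ, hne, hv⟩ := hb (Fin N) K (fun γ => poly D c (A ∪ pw d γ)) hK
      (Pool.Agent.H720R3.deg_of_sum _ _ _ (fun T hT => rep_card A T (mem_filter.1 hT).2) _ _
        (fun γ _ => rep c A γ))
    rw [pw_empty hd, union_empty] at hv
    exact ⟨γ, hγ, hne, (hF _).2 (by rw [hv]; exact (hF _).1 hA)⟩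

end Pool.Agent.N389.PH.Exact
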