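import Pool.Agent.N389.PH.Trans

/-! # Density one half, and the extremal example -/

set_option autoImplicit false

namespace Pool.Agent.N389.PH.Exact

open Finset

section

variable {E : Type} [Fintype E] [DecidableEq E]

omit [Fintype E] in
/-- the two kinds of inner pairs -/
lemma two_pairs (F : Finset (Finset E)) (K : Finset E) :
    ((F ×ˢ K).filter fun q => fl q.1 q.2 ∈ F).card =
      2 * ((F ×ˢ K).filter fun q => q.2 ∉ q.1 ∧ insert q.2 q.1 ∈ F).card := by
  classical
  obtain ⟨P, hP⟩ : ∃ P, P = (F ×ˢ K).filter fun q => q.2 ∉ q.1 ∧ insert q.2 q.1 ∈ F := ⟨_, rfl⟩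
  rw [← hP, two_mul]
  have e1 : ((F ×ˢ K).filter fun q => fl q.1 q.2 ∈ F) = P ∪ P.image (fun q => (fl q.1 q.2, q.2)) := by
    ext ⟨A, x⟩
    rw [mem_union, mem_filter, mem_image, hP, mem_filter, mem_product]
    simp only
    constructor
    · rintro ⟨⟨h1, h2⟩, h3⟩
      by_cases hx : x ∈ A
      · right
        refine ⟨(fl A x, x), mem_filter.2 ⟨mem_product.2 ⟨h3, h2⟩, ?_, ?_⟩, ?_⟩
        · simp only; rw [mem_fl]; exact not_not.2 hx
        · simp only
          rw [← fl_notMem (by rw [mem_fl]; exact not_not.2 hx), fl_fl]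
          exact h1
        · simp only [fl_fl]
      · left
        rw [fl_notMem hx] at h3
        exact ⟨⟨h1, h2⟩, hx, h3⟩
    · rintro (⟨⟨h1, h2⟩, h3, h4⟩ | ⟨⟨B, y⟩, hB, hBA⟩)
      · rw [fl_notMem h3]
        exact ⟨⟨h1, h2⟩, h4⟩
      · rw [mem_filter, mem_product] at hB
        simp only [Prod.mk.injEq] at hB hBA
        obtain ⟨⟨b1, b2⟩, b3, b4⟩ := hB
        obtain ⟨b5, b6⟩ := hBA
        subst b6
        rw [← b5, fl_fl, fl_notMem b3]
        exact ⟨⟨b4, b2⟩, b1⟩
  rw [e1, card_union_of_disjoint, card_image_of_injOn]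
  · rintro ⟨A, x⟩ _ ⟨B, y⟩ _ h
    simp only [Prod.mk.injEq] at h
    obtain ⟨b5, b6⟩ := h
    subst b6
    have := congrArg (fun Z => fl Z x) b5
    simp only [fl_fl] at this
    rw [this]
  · rw [Finset.disjoint_left]
    rintro ⟨A, x⟩ h1 h2
    rw [hP, mem_filter] at h1
    obtain ⟨⟨B, y⟩, hB, hBA⟩ := mem_image.1 h2
    rw [hP, mem_filter] at hB
    simp only [Prod.mk.injEq] at hBA
    obtain ⟨b5, b6⟩ := hBA
    subst b6
    apply h1.2.1
    simp only
    rw [← b5, mem_fl]
    exact hB.2.1

end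

lemma pw_single {d N : ℕ} (i : Fin N) : pw d {i} = {(fun _ => i : Fin d → Fin N)} := by
  ext x
  rw [mem_pw, mem_singleton]
  constructor
  · intro h; funext l; exact mem_singleton.1 (h l)
  · intro h l; rw [h]; exact mem_singleton_self _

/-- relative density more than one half plus half of the average boundary over `N` -/
theorem half {d N : ℕ} (hd : 1 ≤ d) (F S : Finset (Finset (Fin d → Fin N)))
    (hS : N * F.card + (bd F univ).card < 2 * N * (S ∩ F).card) : Good S := by
  classical
  by_contra hgood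
  obtain ⟨e, he⟩ : ∃ e : Fin N → (Fin d → Fin N), e = fun i _ => i := ⟨_, rfl⟩
  have heinj : Function.Injective e := by
    intro i j hij
    rw [he] at hij
    exact congrFun hij ⟨0, hd⟩
  obtain ⟨K, hK⟩ : ∃ K, K = (univ : Finset (Fin N)).image e := ⟨_, rfl⟩
  have hKc : K.card = N := by rw [hK, card_image_of_injective _ heinj, card_univ, Fintype.card_fin]
  obtain ⟨P, hP⟩ : ∃ P, P = (F ×ˢ K).filter fun q => q.2 ∉ q.1 ∧ insert q.2 q.1 ∈ F := ⟨_, rfl⟩
  have h2 : ((F ×ˢ K).filter fun q => fl q.1 q.2 ∈ F).card + (bd F K).card = (F ×ˢ K).card := by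
    rw [bd]
    exact card_filter_add_card_filter_not _
  rw [two_pairs, ← hP] at h2
  have h3 : (F ×ˢ K).card = F.card * N := by rw [card_product, hKc]
  have hbd : (bd F K).card ≤ (bd F univ).card := by
    refine card_le_card fun q hq => ?_
    simp only [bd, mem_filter, mem_product] at hq ⊢
    exact ⟨⟨hq.1.1, mem_univ _⟩, hq.2⟩
  have h4 : P.card ≤ (F \ S).card * N := by
    have h40 : (F \ S).card * N = ((F \ S) ×ˢ K).card := by rw [card_product, hKc]
    rw [h40]
    refine card_le_card_of_injOn (fun q => if q.1 ∈ S then (insert q.2 q.1, q.2) else q) ?_ ?_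
    · rintro ⟨A, x⟩ hq
      rw [mem_coe, hP, mem_filter, mem_product] at hq
      obtain ⟨⟨a1, a2⟩, a3, a4⟩ := hq
      simp only at a1 a2 a3 a4
      rw [mem_coe, mem_product]
      by_cases hA : A ∈ S
      · simp only [if_pos hA]
        refine ⟨mem_sdiff.2 ⟨a4, fun h5 => ?_⟩, a2⟩
        obtain ⟨i, -, rfl⟩ := mem_image.1 (hK ▸ a2)
        refine hgood ⟨A, hA, {i}, singleton_nonempty i, ?_, ?_⟩
        · rw [pw_single, disjoint_singleton_right]
          rw [he] at a3
          exact a3
        · rw [pw_single, union_comm, ← insert_eq]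
          rw [he] at h5
          exact h5
      · simp only [if_neg hA]
        exact ⟨mem_sdiff.2 ⟨a1, hA⟩, a2⟩
    · rintro ⟨A, x⟩ hq ⟨B, y⟩ hq' hAB
      rw [mem_coe, hP, mem_filter, mem_product] at hq hq'
      simp only at hq hq' hAB
      by_cases hA : A ∈ S <;> by_cases hB : B ∈ S
      · rw [if_pos hA, if_pos hB, Prod.mk.injEq] at hAB
        obtain ⟨b1, b2⟩ := hAB
        subst b2
        have := congrArg (fun Z => Z.erase x) b1
        simp only [erase_insert hq.2.1, erase_insert hq'.2.1] at this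
        rw [this]
      · rw [if_pos hA, if_neg hB, Prod.mk.injEq] at hAB
        obtain ⟨b1, b2⟩ := hAB
        subst b2
        exact absurd (b1 ▸ mem_insert_self x A) hq'.2.1
      · rw [if_neg hA, if_pos hB, Prod.mk.injEq] at hAB
        obtain ⟨b1, b2⟩ := hAB
        subst b2
        exact absurd (b1 ▸ mem_insert_self x B) hq.2.1
      · rw [if_neg hA, if_neg hB] at hAB
        exact hAB
  have h5 : (F \ S).card + (S ∩ F).card = F.card := by
    rw [inter_comm]
    exact card_sdiff_add_card_inter F S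
  have h6 : F.card * N = N * (F \ S).card + N * (S ∩ F).card := by
    rw [← h5]; ring
  have h7 : (F \ S).card * N = N * (F \ S).card := mul_comm _ _
  have h8 : N * F.card = F.card * N := mul_comm _ _
  have h9 : 2 * N * (S ∩ F).card = 2 * (N * (S ∩ F).card) := by ring
  rw [h9] at hS
  omega

/-- the sets which contain the diagonal -/
theorem diag {d : ℕ} (hd : 1 ≤ d) (N : ℕ) :
    ∃ F : Finset (Finset (Fin d → Fin N)), F.Nonempty ∧ ¬ Good F ∧
      (bd F univ).card = N * F.card ∧
        ∃ c : Finset (Fin d → Fin N) → ℚ, ∀ A, poly N c A = if A ∈ F then 1 else 0 := by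
  classical
  obtain ⟨e, he⟩ : ∃ e : Fin N → (Fin d → Fin N), e = fun i _ => i := ⟨_, rfl⟩
  have heinj : Function.Injective e := by
    intro i j hij
    rw [he] at hij
    exact congrFun hij ⟨0, hd⟩
  obtain ⟨K, hK⟩ : ∃ K, K = (univ : Finset (Fin N)).image e := ⟨_, rfl⟩
  have hKc : K.card = N := by rw [hK, card_image_of_injective _ heinj, card_univ, Fintype.card_fin]
  have hmem : ∀ A : Finset (Fin d → Fin N), A ∈ (univ.filter fun A => K ⊆ A) ↔ K ⊆ A := by
    intro A; simp
  refine ⟨univ.filter fun A => K ⊆ A, ⟨univ, (hmem _).2 (subset_univ _)⟩, ?_, ?_,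
    fun T => if T = K then 1 else 0, ?_⟩
  · rintro ⟨A, hA, γ, ⟨i, hi⟩, hdis, -⟩
    rw [hmem] at hA
    have h1 : e i ∈ A := hA (hK ▸ mem_image_of_mem _ (mem_univ i))
    refine Finset.disjoint_left.1 hdis h1 (mem_pw.2 fun l => ?_)
    rw [he]
    exact hi
  · have h1 : bd (univ.filter fun A : Finset (Fin d → Fin N) => K ⊆ A) univ
        = (univ.filter fun A : Finset (Fin d → Fin N) => K ⊆ A) ×ˢ K := by
      ext ⟨A, x⟩
      rw [bd, mem_filter, mem_product, mem_product]
      simp only [hmem, mem_univ, and_true]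
      refine and_congr_right fun hA => ?_
      by_cases hx : x ∈ K
      · refine iff_of_true (fun h2 => ?_) hx
        have h3 := h2 hx
        rw [mem_fl] at h3
        exact h3 (hA hx)
      · refine iff_of_false (fun h2 => h2 fun y hy => ?_) hx
        rw [fl, mem_symmDiff, mem_singleton]
        exact Or.inl ⟨hA hy, fun h3 => hx (h3 ▸ hy)⟩
    rw [h1, card_product, hKc, mul_comm]
  · intro A
    rw [poly, sum_ite_eq']
    refine if_congr ?_ rfl rfl
    rw [hmem, mem_filter, mem_powerset, hKc]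
    exact and_iff_left le_rfl

end Pool.Agent.N389.PH.Exact
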