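import Pool.Agent.N389.PH.Sharp

/-! # Functions of small degree with values in a vector space over the rational numbers -/

set_option autoImplicit false

namespace Pool.Agent.N389.PH.Exact

open Finset

section spec

variable {α : Type} [DecidableEq α]

/-- the functions of degree less than `n` -/
def Lt (α : Type) [DecidableEq α] (n : ℕ) : Submodule ℚ (Finset α → ℚ) :=
  Submodule.span ℚ {f | ∃ T : Finset α, T.card < n ∧ f = mon T}

lemma mon_lt {T : Finset α} {n : ℕ} (h : T.card < n) : mon T ∈ Lt α n :=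
  Submodule.subset_span ⟨T, h, rfl⟩

lemma lt_zero {h : Finset α → ℚ} (hh : h ∈ Lt α 0) : h = 0 := by
  have : {f : Finset α → ℚ | ∃ T : Finset α, T.card < 0 ∧ f = mon T} = ∅ := by
    ext f; simp
  rw [Lt, this, Submodule.span_empty, Submodule.mem_bot] at hh
  exact hh

lemma mon_erase (a : α) (T X : Finset α) :
    mon T (X.erase a) = if a ∈ T then 0 else mon T X := by
  unfold mon
  by_cases ha : a ∈ T
  · rw [if_pos ha, if_neg fun h => notMem_erase a X (h ha)]
  · rw [if_neg ha]
    refine if_congr ?_ rfl rfl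
    exact ⟨fun h => h.trans (erase_subset _ _), fun h => subset_erase.2 ⟨h, ha⟩⟩

lemma mon_insert (a : α) (T X : Finset α) : mon T (insert a X) = mon (T.erase a) X := by
  unfold mon
  refine if_congr ?_ rfl rfl
  rw [subset_insert_iff]

lemma u_mem (a : α) {n : ℕ} {h : Finset α → ℚ} (hh : h ∈ Lt α n) :
    (fun X => (h (X.erase a) + h (insert a X)) / 2) ∈ Lt α n := by
  induction hh using Submodule.span_induction with
  | mem f hf =>
    obtain ⟨T, hT, rfl⟩ := hf
    by_cases ha : a ∈ T
    · have : (fun X => (mon T (X.erase a) + mon T (insert a X)) / 2)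
          = (1 / 2 : ℚ) • mon (T.erase a) := by
        funext X
        rw [mon_erase, mon_insert, if_pos ha, zero_add, Pi.smul_apply, smul_eq_mul]
        ring
      rw [this]
      exact Submodule.smul_mem _ _ (mon_lt ((card_le_card (erase_subset _ _)).trans_lt hT))
    · have : (fun X => (mon T (X.erase a) + mon T (insert a X)) / 2) = mon T := by
        funext X
        rw [mon_erase, mon_insert, if_neg ha, erase_eq_of_notMem ha]
        ring
      rw [this]
      exact mon_lt hT
  | zero =>
    convert zero_mem (Lt α n) using 1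
    funext X
    simp
  | add x y _ _ hx hy =>
    convert add_mem hx hy using 1
    funext X
    simp only [Pi.add_apply]
    ring
  | smul c x _ hx =>
    convert Submodule.smul_mem _ c hx using 1
    funext X
    simp only [Pi.smul_apply, smul_eq_mul]
    ring

lemma v_mem (a : α) {n : ℕ} {h : Finset α → ℚ} (hh : h ∈ Lt α (n + 1)) :
    (fun X => (h (X.erase a) - h (insert a X)) / 2) ∈ Lt α n := by
  induction hh using Submodule.span_induction with
  | mem f hf =>
    obtain ⟨T, hT, rfl⟩ := hf
    by_cases ha : a ∈ T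
    · have : (fun X => (mon T (X.erase a) - mon T (insert a X)) / 2)
          = (-1 / 2 : ℚ) • mon (T.erase a) := by
        funext X
        rw [mon_erase, mon_insert, if_pos ha, zero_sub, Pi.smul_apply, smul_eq_mul]
        ring
      rw [this]
      refine Submodule.smul_mem _ _ (mon_lt ?_)
      rw [card_erase_of_mem ha]
      have := card_pos.2 ⟨a, ha⟩
      omega
    · have : (fun X => (mon T (X.erase a) - mon T (insert a X)) / 2) = 0 := by
        funext X
        rw [mon_erase, mon_insert, if_neg ha, erase_eq_of_notMem ha]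
        simp
      rw [this]
      exact zero_mem _
  | zero =>
    convert zero_mem (Lt α n) using 1
    funext X
    simp
  | add x y _ _ hx hy =>
    convert add_mem hx hy using 1
    funext X
    simp only [Pi.add_apply]
    ring
  | smul c x _ hx =>
    convert Submodule.smul_mem _ c hx using 1
    funext X
    simp only [Pi.smul_apply, smul_eq_mul]
    ring

/-- the spectral inequality -/
lemma spec (K : Finset α) : ∀ (n : ℕ) (h : Finset α → ℚ), h ∈ Lt α n →
    ((K.card : ℚ) + 2 - 2 * n) * ∑ X ∈ K.powerset, h X ^ 2 ≤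
      2 * ∑ X ∈ K.powerset, ∑ i ∈ K \ X, h X * h (insert i X) := by
  induction K using Finset.induction_on with
  | empty =>
    intro n h hh
    rcases n with _ | n
    · rw [lt_zero hh]; simp
    · simp only [card_empty, powerset_empty, sum_singleton, empty_sdiff, sum_empty]
      push_cast
      nlinarith [sq_nonneg (h ∅), Nat.cast_nonneg (α := ℚ) n]
  | insert a K ha ih =>
    intro n h hh
    rcases n with _ | n
    · rw [lt_zero hh]; simp
    obtain ⟨u, hu⟩ : ∃ u : Finset α → ℚ, u = fun X => (h (X.erase a) + h (insert a X)) / 2 := ⟨_, rfl⟩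
    obtain ⟨v, hv⟩ : ∃ v : Finset α → ℚ, v = fun X => (h (X.erase a) - h (insert a X)) / 2 := ⟨_, rfl⟩
    have hum : u ∈ Lt α (n + 1) := hu ▸ u_mem a hh
    have hvm : v ∈ Lt α n := hv ▸ v_mem a hh
    have h0 : ∀ X, a ∉ X → h X = u X + v X := by
      intro X hX
      rw [hu, hv]
      simp only
      rw [erase_eq_of_notMem hX]
      ring
    have h1 : ∀ X, a ∉ X → h (insert a X) = u X - v X := by
      intro X hX
      rw [hu, hv]
      simp only
      ring
    have hP : ∀ X ∈ K.powerset, a ∉ X := fun X hX hX' => ha (mem_powerset.1 hX hX')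
    -- the sum of squares
    have hQ : ∑ X ∈ (insert a K).powerset, h X ^ 2
        = 2 * ∑ X ∈ K.powerset, u X ^ 2 + 2 * ∑ X ∈ K.powerset, v X ^ 2 := by
      rw [sum_powerset_insert ha, ← sum_add_distrib, mul_sum, mul_sum, ← sum_add_distrib]
      refine sum_congr rfl fun X hX => ?_
      rw [h0 X (hP X hX), h1 X (hP X hX)]
      ring
    -- the form
    have hB : ∑ X ∈ (insert a K).powerset, ∑ i ∈ insert a K \ X, h X * h (insert i X)
        = 2 * ∑ X ∈ K.powerset, ∑ i ∈ K \ X, u X * u (insert i X)
          + 2 * ∑ X ∈ K.powerset, ∑ i ∈ K \ X, v X * v (insert i X)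
          + (∑ X ∈ K.powerset, u X ^ 2 - ∑ X ∈ K.powerset, v X ^ 2) := by
      rw [sum_powerset_insert ha, ← sum_add_distrib, mul_sum, mul_sum, ← sum_sub_distrib,
        ← sum_add_distrib, ← sum_add_distrib]
      refine sum_congr rfl fun X hX => ?_
      have haX := hP X hX
      have e1 : insert a K \ X = insert a (K \ X) := insert_sdiff_of_notMem K haX
      have e2 : insert a K \ insert a X = K \ X := by
        ext x
        simp only [mem_sdiff, mem_insert]
        constructor
        · rintro ⟨h1 | h1, h2⟩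
          · exact absurd (Or.inl h1) h2
          · exact ⟨h1, fun h3 => h2 (Or.inr h3)⟩
        · rintro ⟨h1, h2⟩
          refine ⟨Or.inr h1, ?_⟩
          rintro (h3 | h3)
          · exact ha (h3 ▸ h1)
          · exact h2 h3
      have haK : a ∉ K \ X := fun h => ha (mem_sdiff.1 h).1
      rw [e1, e2, sum_insert haK, h0 X haX, h1 X haX, mul_sum, mul_sum]
      have e3 : ∑ i ∈ K \ X, (u X + v X) * h (insert i X)
          = ∑ i ∈ K \ X, (u X + v X) * (u (insert i X) + v (insert i X)) := by
        refine sum_congr rfl fun i hi => ?_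
        rw [h0 (insert i X)]
        rw [mem_insert, not_or]
        exact ⟨fun h => haK (h ▸ hi), haX⟩
      have e4 : ∑ i ∈ K \ X, (u X - v X) * h (insert i (insert a X))
          = ∑ i ∈ K \ X, (u X - v X) * (u (insert i X) - v (insert i X)) := by
        refine sum_congr rfl fun i hi => ?_
        rw [Finset.insert_comm, h1 (insert i X)]
        rw [mem_insert, not_or]
        exact ⟨fun h => haK (h ▸ hi), haX⟩
      rw [e3, e4]
      have e5 : ∑ i ∈ K \ X, (u X + v X) * (u (insert i X) + v (insert i X))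
          + ∑ i ∈ K \ X, (u X - v X) * (u (insert i X) - v (insert i X))
          = ∑ i ∈ K \ X, 2 * (u X * u (insert i X)) + ∑ i ∈ K \ X, 2 * (v X * v (insert i X)) := by
        rw [← sum_add_distrib, ← sum_add_distrib]
        refine sum_congr rfl fun i _ => ?_
        ring
      linarith
    have i1 := ih (n + 1) u hum
    have i2 := ih n v hvm
    rw [hQ, hB, card_insert_of_notMem ha]
    push_cast at i1 i2 ⊢
    linarith

/-- two neighbours in the support -/
lemma nbr (K : Finset α) (L : ℕ) (hK : 2 * L < K.card) (h : Finset α → ℚ) (hh : h ∈ Lt α (L + 1))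
    (X₀ : Finset α) (hX₀ : X₀ ⊆ K) (h0 : h X₀ ≠ 0) :
    ∃ X ⊆ K, ∃ i ∈ K, i ∉ X ∧ h X ≠ 0 ∧ h (insert i X) ≠ 0 := by
  by_contra hcon
  push Not at hcon
  have h1 := spec K (L + 1) h hh
  have h2 : ∑ X ∈ K.powerset, ∑ i ∈ K \ X, h X * h (insert i X) = 0 := by
    refine sum_eq_zero fun X hX => sum_eq_zero fun i hi => ?_
    rw [mem_sdiff] at hi
    by_cases h3 : h X = 0
    · rw [h3, zero_mul]
    · rw [hcon X (mem_powerset.1 hX) i hi.1 hi.2 h3, mul_zero]
  rw [h2, mul_zero] at h1
  have h3 : 0 < ∑ X ∈ K.powerset, h X ^ 2 := by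
    refine sum_pos' (fun X _ => sq_nonneg _) ⟨X₀, mem_powerset.2 hX₀, ?_⟩
    positivity
  have h4 : (0 : ℚ) < (K.card : ℚ) + 2 - 2 * ((L + 1 : ℕ) : ℚ) := by
    have : (2 * (L : ℚ)) < K.card := by exact_mod_cast hK
    push_cast
    linarith
  have := mul_pos h4 h3
  linarith

end spec

/-- the counting step -/
lemma core0 {d N : ℕ} (F S : Finset (Finset (Fin d → Fin N))) (U : Finset (Fin d → Fin N))
    (H : ∀ A ∈ F, ∃ A' ∈ F, ∃ γ : Finset (Fin N), γ.Nonempty ∧ Disjoint A' (pw d γ) ∧
      A' ∪ pw d γ ∈ F ∧ A' \ U = A \ U ∧ pw d γ ⊆ U)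
    (hS : 2 ^ U.card * (F \ S).card < F.card) : Good S := by
  classical
  by_contra hgood
  have key : ∀ A ∈ F, ∃ A' ∈ F \ S, A' \ U = A \ U := by
    intro A hA
    obtain ⟨A', hA', γ, hne, hdis, hU, e1, e2⟩ := H A hA
    by_contra hcon
    push Not at hcon
    have h1 : A' ∈ S := by
      by_contra h
      exact hcon _ (mem_sdiff.2 ⟨hA', h⟩) e1
    have h2 : A' ∪ pw d γ ∈ S := by
      by_contra h
      refine hcon _ (mem_sdiff.2 ⟨hU, h⟩) ?_
      rw [union_sdiff_distrib, e1, sdiff_eq_empty_iff_subset.2 e2, union_empty]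
    exact hgood ⟨_, h1, γ, hne, hdis, h2⟩
  choose! g hg1 hg2 using key
  have hcard : F.card ≤ (F \ S).card * U.powerset.card := by
    rw [← card_product]
    refine card_le_card_of_injOn (fun A => (g A, A ∩ U)) ?_ ?_
    · intro A hA
      rw [mem_coe, mem_product, mem_powerset]
      exact ⟨hg1 A hA, inter_subset_right⟩
    · intro A hA B hB hAB
      simp only [Prod.mk.injEq] at hAB
      have h1 := hg2 A hA
      have h2 := hg2 B hB
      rw [hAB.1] at h1
      rw [← sdiff_union_inter A U, ← h1, h2, hAB.2, sdiff_union_inter]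
  rw [card_powerset, mul_comm] at hcard
  omega

/-- supports of functions of small degree with values in a vector space over the rational numbers -/
theorem rat {d : ℕ} (hd : 1 ≤ d) {M : Type} [AddCommGroup M] [Module ℚ M] (L N : ℕ)
    (hN : 2 * L < N) (c : Finset (Fin d → Fin N) → M)
    (F S : Finset (Finset (Fin d → Fin N))) (hF : ∀ A, A ∈ F ↔ poly L c A ≠ 0)
    (hS : 2 ^ (2 * L + 1) * (F \ S).card < F.card) : Good S := by
  classical
  obtain ⟨K, -, hK⟩ := exists_subset_card_eq (s := (univ : Finset (Fin N))) (n := 2 * L + 1)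
    (by rw [card_univ, Fintype.card_fin]; exact hN)
  obtain ⟨e, he⟩ : ∃ e : Fin N → (Fin d → Fin N), e = fun i _ => i := ⟨_, rfl⟩
  have heinj : Function.Injective e := by
    intro i j hij
    rw [he] at hij
    exact congrFun hij ⟨0, hd⟩
  have hpw : ∀ i, pw d {i} = {e i} := by
    intro i
    ext x
    rw [mem_pw, mem_singleton, he]
    constructor
    · intro h; funext l; exact mem_singleton.1 (h l)
    · intro h l; rw [h]; exact mem_singleton_self _
  refine core0 F S (K.image e) ?_ (by
    rw [card_image_of_injective _ heinj, hK]; exact hS)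
  intro A hA
  obtain ⟨B, hB⟩ : ∃ B, B = A \ K.image e := ⟨_, rfl⟩
  have hX₀ : B ∪ (K.filter fun i => e i ∈ A).image e = A := by
    rw [hB]
    ext x
    rw [mem_union, mem_sdiff, mem_image, mem_image]
    constructor
    · rintro (⟨h1, _⟩ | ⟨i, hi, rfl⟩)
      · exact h1
      · exact (mem_filter.1 hi).2
    · intro hx
      by_cases h1 : ∃ i ∈ K, e i = x
      · obtain ⟨i, hi, rfl⟩ := h1
        exact Or.inr ⟨i, mem_filter.2 ⟨hi, hx⟩, rfl⟩
      · exact Or.inl ⟨hx, h1⟩
  have hne : poly L c A ≠ 0 := (hF A).1 hA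
  obtain ⟨φ, hφ⟩ : ∃ φ : M →ₗ[ℚ] ℚ, φ (poly L c A) ≠ 0 := by
    by_contra hcon
    push Not at hcon
    exact hne ((Module.forall_dual_apply_eq_zero_iff ℚ _).1 hcon)
  obtain ⟨h, hh⟩ : ∃ h : Finset (Fin N) → ℚ, h = fun X => φ (poly L c (B ∪ X.image e)) := ⟨_, rfl⟩
  have hmem : h ∈ Lt (Fin N) (L + 1) := by
    have h1 : h = ∑ T ∈ univ.filter (fun T : Finset (Fin d → Fin N) => T.card ≤ L),
        (if ∀ x ∈ T \ B, e (x ⟨0, hd⟩) = x then φ (c T) else 0) •
          mon ((T \ B).image fun x => x ⟨0, hd⟩) := by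
      funext X
      rw [hh]
      simp only
      rw [rep', map_sum, Finset.sum_apply]
      refine sum_congr rfl fun T _ => ?_
      rw [Pi.smul_apply, smul_eq_mul]
      by_cases h2 : ∀ x ∈ T \ B, e (x ⟨0, hd⟩) = x
      · rw [if_pos h2, mon]
        have h3 : T \ B ⊆ X.image e ↔ (T \ B).image (fun x => x ⟨0, hd⟩) ⊆ X := by
          constructor
          · intro h4 i hi
            rw [mem_image] at hi
            obtain ⟨x, hx, rfl⟩ := hi
            obtain ⟨j, hj, hjx⟩ := mem_image.1 (h4 hx)
            rw [← h2 x hx] at hjx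
            rw [← heinj hjx]
            exact hj
          · intro h4 x hx
            rw [← h2 x hx]
            exact mem_image_of_mem _ (h4 (mem_image_of_mem _ hx))
        by_cases h4 : T \ B ⊆ X.image e
        · rw [if_pos h4, if_pos (h3.1 h4), mul_one]
        · rw [if_neg h4, if_neg (fun h5 => h4 (h3.2 h5)), map_zero, mul_zero]
      · rw [if_neg h2, zero_mul, if_neg, map_zero]
        intro h3
        apply h2
        intro x hx
        obtain ⟨j, _, hjx⟩ := mem_image.1 (h3 hx)
        rw [← hjx, he]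
    rw [h1]
    refine Submodule.sum_mem _ fun T hT => Submodule.smul_mem _ _ (mon_lt ?_)
    rw [mem_filter] at hT
    exact Nat.lt_succ_of_le (card_image_le.trans ((card_le_card sdiff_subset).trans hT.2))
  obtain ⟨X, hX, i, hi, hiX, h1, h2⟩ := nbr K L (by omega) h hmem
    (K.filter fun i => e i ∈ A) (filter_subset _ _) (by rw [hh]; simp only; rw [hX₀]; exact hφ)
  rw [hh] at h1 h2
  simp only at h1 h2
  have hXe : X.image e ⊆ K.image e := image_subset_image hX
  refine ⟨B ∪ X.image e, (hF _).2 fun h3 => h1 (by rw [h3, map_zero]), {i}, singleton_nonempty i,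
    ?_, ?_, ?_, ?_⟩
  · rw [hpw, disjoint_singleton_right, mem_union, not_or, hB]
    constructor
    · intro h3; exact (mem_sdiff.1 h3).2 (mem_image_of_mem _ hi)
    · intro h3
      obtain ⟨j, hj, hji⟩ := mem_image.1 h3
      exact hiX (heinj hji ▸ hj)
  · have h3 : B ∪ X.image e ∪ pw d {i} = B ∪ (insert i X).image e := by
      rw [hpw, image_insert, union_assoc, union_comm (X.image e), ← insert_eq]
    rw [h3]
    exact (hF _).2 fun h4 => h2 (by rw [h4, map_zero])
  · rw [union_sdiff_distrib, sdiff_eq_empty_iff_subset.2 hXe, union_empty, hB, Finset.sdiff_idem]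
  · rw [hpw, singleton_subset_iff]
    exact mem_image_of_mem _ hi

end Pool.Agent.N389.PH.Exact
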