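import Pool.Agent.N389.PH.Dense

/-! # Average sensitivity of families of small real degree, cosets, transfer -/

set_option autoImplicit false

namespace Pool.Agent.N389.PH.Exact

open Finset

section

variable {E : Type} [Fintype E] [DecidableEq E]

/-- change the cell `x` -/
def fl (A : Finset E) (x : E) : Finset E := symmDiff A {x}

omit [Fintype E] in
lemma fl_notMem {A : Finset E} {x : E} (h : x ∉ A) : fl A x = insert x A := by
  ext y
  simp only [fl, mem_symmDiff, mem_singleton, mem_insert]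
  by_cases hy : y = x
  · subst hy; simp [h]
  · simp [hy]

omit [Fintype E] in
lemma fl_mem {A : Finset E} {x : E} (h : x ∈ A) : fl A x = A.erase x := by
  ext y
  simp only [fl, mem_symmDiff, mem_singleton, mem_erase]
  by_cases hy : y = x
  · subst hy; simp [h]
  · simp [hy]

omit [Fintype E] in
lemma fl_fl (A : Finset E) (x : E) : fl (fl A x) x = A := by
  rw [fl, fl, symmDiff_symmDiff_cancel_right]

omit [Fintype E] in
lemma mem_fl (A : Finset E) (x : E) : x ∈ fl A x ↔ x ∉ A := by
  rw [fl, mem_symmDiff]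
  simp

/-- the pairs of neighbours -/
lemma pairs_many (K : Finset E) (L : ℕ) (c : Finset E → ℚ) (F : Finset (Finset E))
    (hF : ∀ A, poly L c A = if A ∈ F then 1 else 0) :
    ((K.card : ℚ) - 2 * L) * F.card ≤
      2 * ((F ×ˢ K).filter fun q => q.2 ∉ q.1 ∧ insert q.2 q.1 ∈ F).card := by
  obtain ⟨P, hP⟩ : ∃ P, P = (F ×ˢ K).filter fun q => q.2 ∉ q.1 ∧ insert q.2 q.1 ∈ F := ⟨_, rfl⟩
  rw [← hP]
  have h1 := spec_all K L c
  have h2 : ∑ A : Finset E, poly L c A ^ 2 = F.card := by
    rw [card_eq_sum_ones, Nat.cast_sum, ← sum_filter_add_sum_filter_not univ (fun A => A ∈ F)]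
    have e1 : ∑ A ∈ univ.filter (fun A : Finset E => ¬ A ∈ F), poly L c A ^ 2 = 0 := by
      refine sum_eq_zero fun A hA => ?_
      rw [hF, if_neg (mem_filter.1 hA).2]; norm_num
    rw [e1, add_zero]
    have e2 : univ.filter (fun A : Finset E => A ∈ F) = F := by
      ext A; simp
    rw [e2]
    refine sum_congr rfl fun A hA => ?_
    rw [hF, if_pos hA]; norm_num
  have h3 : ∑ A : Finset E, ∑ x ∈ K \ A, poly L c A * poly L c (insert x A) = P.card := by
    have e1 : ∀ A : Finset E, ∑ x ∈ K \ A, poly L c A * poly L c (insert x A)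
        = (((K.filter fun x => A ∈ F ∧ x ∉ A ∧ insert x A ∈ F).card : ℕ) : ℚ) := by
      intro A
      rw [card_filter, Nat.cast_sum, sdiff_eq_filter, sum_filter]
      refine sum_congr rfl fun x _ => ?_
      rw [hF, hF]
      by_cases a1 : x ∈ A <;> by_cases a2 : A ∈ F <;> by_cases a3 : insert x A ∈ F <;>
        simp [a1, a2, a3]
    rw [sum_congr rfl fun A _ => e1 A, ← Nat.cast_sum]
    congr 1
    rw [hP, ← card_sigma]
    refine card_nbij' (fun q => (q.1, q.2)) (fun q => ⟨q.1, q.2⟩) ?_ ?_ ?_ ?_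
    · rintro ⟨A, x⟩ hq
      simp only [coe_sigma, Set.mem_sigma_iff, mem_coe, mem_univ, mem_filter, true_and,
        mem_product] at hq ⊢
      exact ⟨⟨hq.2.1, hq.1⟩, hq.2.2⟩
    · rintro ⟨A, x⟩ hq
      simp only [coe_sigma, Set.mem_sigma_iff, mem_coe, mem_univ, mem_filter, true_and,
        mem_product] at hq ⊢
      exact ⟨hq.1.2, hq.1.1, hq.2⟩
    · rintro ⟨A, x⟩ _; rfl
    · rintro ⟨A, x⟩ _; rfl
  rw [h2, h3] at h1
  exact h1

/-- the boundary of `F` in the directions of `K` -/
def bd (F : Finset (Finset E)) (K : Finset E) : Finset (Finset E × E) :=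
  (F ×ˢ K).filter fun q => fl q.1 q.2 ∉ F

/-- the average sensitivity is at most `2 L` -/
lemma sens (L : ℕ) (c : Finset E → ℚ) (F : Finset (Finset E))
    (hF : ∀ A, poly L c A = if A ∈ F then 1 else 0) (K : Finset E) :
    (bd F K).card ≤ 2 * L * F.card := by
  classical
  have h1 := pairs_many K L c F hF
  obtain ⟨P, hP⟩ : ∃ P, P = (F ×ˢ K).filter fun q => q.2 ∉ q.1 ∧ insert q.2 q.1 ∈ F := ⟨_, rfl⟩
  rw [← hP] at h1
  have h2 : ((F ×ˢ K).filter fun q => fl q.1 q.2 ∈ F).card + (bd F K).card = F.card * K.card := by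
    rw [bd, ← card_product]
    exact card_filter_add_card_filter_not _
  have h3 : ((F ×ˢ K).filter fun q => fl q.1 q.2 ∈ F).card = P.card + P.card := by
    have e1 : ((F ×ˢ K).filter fun q => fl q.1 q.2 ∈ F) = P ∪ P.image (fun q => (fl q.1 q.2, q.2)) := by
      ext ⟨A, x⟩
      rw [mem_union, mem_filter, mem_image, hP, mem_filter, mem_product]
      simp only
      constructor
      · rintro ⟨⟨h1, h2⟩, h3⟩
        by_cases hx : x ∈ A
        · right
          refine ⟨(fl A x, x), mem_filter.2 ⟨mem_product.2 ⟨h3, h2⟩, ?_, ?_⟩, ?_⟩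
          · simp only; rw [mem_fl]; exact not_not.2 hx
          · simp only
            rw [← fl_notMem (by rw [mem_fl]; exact not_not.2 hx), fl_fl]
            exact h1
          · simp only [fl_fl]
        · left
          rw [fl_notMem hx] at h3
          exact ⟨⟨h1, h2⟩, hx, h3⟩
      · rintro (⟨⟨h1, h2⟩, h3, h4⟩ | ⟨⟨B, y⟩, hB, hBA⟩)
        · rw [fl_notMem h3]
          exact ⟨⟨h1, h2⟩, h4⟩
        · rw [mem_filter, mem_product] at hB
          simp only [Prod.mk.injEq] at hB hBA
          obtain ⟨⟨b1, b2⟩, b3, b4⟩ := hB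
          obtain ⟨b5, b6⟩ := hBA
          subst b6
          rw [← b5, fl_fl, fl_notMem b3]
          exact ⟨⟨b4, b2⟩, b1⟩
    rw [e1, card_union_of_disjoint, card_image_of_injOn]
    · rintro ⟨A, x⟩ _ ⟨B, y⟩ _ h
      simp only [Prod.mk.injEq] at h
      obtain ⟨b5, b6⟩ := h
      subst b6
      have := congrArg (fun Z => fl Z x) b5
      simp only [fl_fl] at this
      rw [this]
    · rw [Finset.disjoint_left]
      rintro ⟨A, x⟩ h1 h2
      rw [hP, mem_filter] at h1
      obtain ⟨⟨B, y⟩, hB, hBA⟩ := mem_image.1 h2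
      rw [hP, mem_filter] at hB
      simp only [Prod.mk.injEq] at hBA
      obtain ⟨b5, b6⟩ := hBA
      subst b6
      apply h1.2.1
      simp only
      rw [← b5, mem_fl]
      exact hB.2.1
  have h4 : ((bd F K).card : ℚ) = F.card * K.card - 2 * P.card := by
    have : (((F ×ˢ K).filter fun q => fl q.1 q.2 ∈ F).card : ℚ) + (bd F K).card
        = F.card * K.card := by exact_mod_cast h2
    rw [h3] at this
    push_cast at this
    linarith
  have h5 : ((bd F K).card : ℚ) ≤ ((2 * L * F.card : ℕ) : ℚ) := by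
    rw [h4]; push_cast; linarith
  exact_mod_cast h5

/-- the sets whose coset of `W` lies in `F` -/
def full (F : Finset (Finset E)) (W : Finset E) : Finset (Finset E) :=
  F.filter fun A => ∀ X ∈ W.powerset, A \ W ∪ X ∈ F

/-- few sets of `F` lie in a coset of `W` which is not contained in `F` -/
lemma bad_card (F : Finset (Finset E)) (W : Finset E) :
    (F \ full F W).card ≤ 2 ^ W.card * (bd F W).card := by
  classical
  have key : ∀ A ∈ F \ full F W, ∃ Y ⊆ W, ∃ x ∈ W, symmDiff A Y ∈ F ∧ fl (symmDiff A Y) x ∉ F := by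
    intro A hA
    rw [full, mem_sdiff, mem_filter, not_and] at hA
    obtain ⟨hA, hA'⟩ := hA
    have hA'' := hA' hA
    push Not at hA''
    obtain ⟨X, hX, hAX⟩ := hA''
    rw [mem_powerset] at hX
    have e1 : A \ W ∪ X = symmDiff A (symmDiff (A ∩ W) X) := by
      ext y
      simp only [mem_union, mem_sdiff, mem_symmDiff, mem_inter]
      have := @hX y
      tauto
    have hsub : symmDiff (A ∩ W) X ⊆ W := by
      intro y hy
      rw [mem_symmDiff, mem_inter] at hy
      rcases hy with ⟨⟨_, h1⟩, _⟩ | ⟨h1, _⟩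
      · exact h1
      · exact hX h1
    obtain ⟨Y, hY, hmin⟩ := exists_min_image (W.powerset.filter fun Y => symmDiff A Y ∉ F) card
      ⟨symmDiff (A ∩ W) X, mem_filter.2 ⟨mem_powerset.2 hsub, by rw [← e1]; exact hAX⟩⟩
    rw [mem_filter, mem_powerset] at hY
    have hYne : Y.Nonempty := by
      rw [nonempty_iff_ne_empty]
      rintro rfl
      apply hY.2
      have : symmDiff A (∅ : Finset E) = A := symmDiff_bot A
      rw [this]
      exact hA
    obtain ⟨x, hx⟩ := hYne
    refine ⟨Y.erase x, (erase_subset _ _).trans hY.1, x, hY.1 hx, ?_, ?_⟩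
    · by_contra hcon
      have h1 := hmin (Y.erase x) (mem_filter.2 ⟨mem_powerset.2 ((erase_subset _ _).trans hY.1), hcon⟩)
      have h2 := card_erase_lt_of_mem hx
      omega
    · have e2 : fl (symmDiff A (Y.erase x)) x = symmDiff A Y := by
        rw [fl, symmDiff_assoc]
        congr 1
        have h3 := fl_notMem (notMem_erase x Y)
        rw [fl] at h3
        rw [h3, insert_erase hx]
      rw [e2]
      exact hY.2
  rcases (F \ full F W).eq_empty_or_nonempty with hemp | ⟨A₀, hA₀⟩
  · rw [hemp, card_empty]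
    exact Nat.zero_le _
  have hne : Nonempty E := by
    obtain ⟨_, _, x, _⟩ := key A₀ hA₀
    exact ⟨x⟩
  choose! Y hY x hx h1 h2 using key
  rw [← card_powerset, ← card_product]
  refine card_le_card_of_injOn (fun A => (Y A, (symmDiff A (Y A), x A))) ?_ ?_
  · intro A hA
    rw [mem_coe, mem_product, mem_powerset, bd, mem_filter, mem_product]
    exact ⟨hY A hA, ⟨h1 A hA, hx A hA⟩, h2 A hA⟩
  · intro A _ B _ hAB
    simp only [Prod.mk.injEq] at hAB
    obtain ⟨b1, b2, _⟩ := hAB
    rw [b1] at b2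
    exact symmDiff_left_injective _ b2

/-- some coset in `F` has many elements of `S` -/
lemma exists_coset (F S : Finset (Finset E)) (W : Finset E) (θ : ℝ) (h0 : 0 ≤ θ)
    (h : θ * F.card < (S ∩ full F W).card) :
    ∃ B : Finset E, Disjoint B W ∧
      θ * 2 ^ W.card < ((W.powerset.filter fun X => B ∪ X ∈ S).card : ℝ) := by
  classical
  by_contra hcon
  push Not at hcon
  have hsub : full F W ⊆ F := filter_subset _ _
  have hinv : ∀ A ∈ full F W, ∀ X ⊆ W, A \ W ∪ X ∈ full F W := by
    intro A hA X hX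
    rw [full, mem_filter] at hA ⊢
    refine ⟨hA.2 X (mem_powerset.2 hX), fun Z hZ => ?_⟩
    have : (A \ W ∪ X) \ W = A \ W := by
      rw [union_sdiff_distrib, sdiff_eq_empty_iff_subset.2 hX, union_empty, Finset.sdiff_idem]
    rw [this]
    exact hA.2 Z hZ
  have h1 : ∑ B ∈ full F W, (W.powerset.filter fun X => B \ W ∪ X ∈ S).card
      = (S ∩ full F W).card * 2 ^ W.card := by
    rw [← card_powerset, ← card_product, ← card_sigma]
    refine card_nbij' (fun q => (q.1 \ W ∪ q.2, q.1 ∩ W))
      (fun q => ⟨q.1 \ W ∪ q.2, q.1 ∩ W⟩) ?_ ?_ ?_ ?_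
    · rintro ⟨B, X⟩ hq
      simp only [coe_sigma, Set.mem_sigma_iff, mem_coe, mem_filter, mem_powerset] at hq
      rw [mem_coe, mem_product, mem_powerset, mem_inter]
      exact ⟨⟨hq.2.2, hinv B hq.1 X hq.2.1⟩, inter_subset_right⟩
    · rintro ⟨A, Z⟩ hq
      rw [mem_coe, mem_product, mem_powerset, mem_inter] at hq
      simp only [coe_sigma, Set.mem_sigma_iff, mem_coe, mem_filter, mem_powerset]
      obtain ⟨⟨q1, q2⟩, q3⟩ := hq
      simp only at q1 q2 q3
      have : (A \ W ∪ Z) \ W = A \ W := by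
        rw [union_sdiff_distrib, sdiff_eq_empty_iff_subset.2 q3, union_empty, Finset.sdiff_idem]
      refine ⟨hinv A q2 Z q3, inter_subset_right, ?_⟩
      rw [this, sdiff_union_inter]
      exact q1
    · rintro ⟨B, X⟩ hq
      simp only [coe_sigma, Set.mem_sigma_iff, mem_coe, mem_filter, mem_powerset] at hq
      obtain ⟨_, q3, _⟩ := hq
      have e1 : (B \ W ∪ X) \ W = B \ W := by
        rw [union_sdiff_distrib, sdiff_eq_empty_iff_subset.2 q3, union_empty, Finset.sdiff_idem]
      have e2 : (B \ W ∪ X) ∩ W = X := by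
        rw [union_inter_distrib_right, disjoint_iff_inter_eq_empty.1 sdiff_disjoint, empty_union,
          inter_eq_left.2 q3]
      simp only
      rw [e1, e2, sdiff_union_inter]
    · rintro ⟨A, Z⟩ hq
      rw [mem_coe, mem_product, mem_powerset, mem_inter] at hq
      obtain ⟨_, q3⟩ := hq
      simp only at q3
      have e1 : (A \ W ∪ Z) \ W = A \ W := by
        rw [union_sdiff_distrib, sdiff_eq_empty_iff_subset.2 q3, union_empty, Finset.sdiff_idem]
      have e2 : (A \ W ∪ Z) ∩ W = Z := by
        rw [union_inter_distrib_right, disjoint_iff_inter_eq_empty.1 sdiff_disjoint, empty_union,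
          inter_eq_left.2 q3]
      simp only
      rw [e1, e2, sdiff_union_inter]
  have h2 : ((S ∩ full F W).card : ℝ) * 2 ^ W.card ≤ (full F W).card * (θ * 2 ^ W.card) := by
    have : (((S ∩ full F W).card * 2 ^ W.card : ℕ) : ℝ) ≤ (full F W).card * (θ * 2 ^ W.card) := by
      rw [← h1, Nat.cast_sum]
      calc ∑ B ∈ full F W, ((W.powerset.filter fun X => B \ W ∪ X ∈ S).card : ℝ)
          ≤ ∑ _B ∈ full F W, θ * 2 ^ W.card :=
            sum_le_sum fun B _ => hcon (B \ W) sdiff_disjoint
        _ = _ := by rw [sum_const, nsmul_eq_mul]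
    push_cast at this
    exact this
  have h3 : (0 : ℝ) < 2 ^ W.card := by positivity
  have h4 : ((S ∩ full F W).card : ℝ) ≤ (full F W).card * θ := by
    have : ((S ∩ full F W).card : ℝ) * 2 ^ W.card ≤ ((full F W).card * θ) * 2 ^ W.card := by
      linarith
    exact le_of_mul_le_mul_right this h3
  have h5 : ((full F W).card : ℝ) ≤ F.card := by exact_mod_cast card_le_card hsub
  have h6 : ((full F W).card : ℝ) * θ ≤ F.card * θ := mul_le_mul_of_nonneg_right h5 h0
  linarith

end

end Pool.Agent.N389.PH.Exact
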