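import Pool.Agent.Y474.CO.Affsh
import Pool.Agent.N389.PH.Exact

/-! # Families of small degree which are not good -/

set_option autoImplicit false

namespace Pool.Agent.N389.PH.Exact

open Finset
open Pool.Agent.Y474.CO (W bl cond_symm par sumW)

section

variable {E : Type} [Fintype E] [DecidableEq E] {G : Type} [AddCommGroup G]

omit [Fintype E] in
/-- sums of monomials are polynomials -/
lemma poly_of_sum {ι : Type} (I : Finset ι) (s : ι → Finset E) (a : ι → G) (D : ℕ)
    (hs : ∀ i ∈ I, (s i).card ≤ D) (A : Finset E) :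
    poly D (fun T => ∑ i ∈ I, if s i = T then a i else 0) A
      = ∑ i ∈ I, if s i ⊆ A then a i else 0 := by
  rw [poly, sum_comm]
  refine sum_congr rfl fun i hi => ?_
  rw [sum_ite_eq]
  refine if_congr ?_ rfl rfl
  rw [mem_filter, mem_powerset]
  exact and_iff_left (hs i hi)

end

/-- for `N = (d + 1) m` some nonempty family of degree at most `m` modulo 2 is not good -/
theorem sharp_two {d : ℕ} (hd : 1 ≤ d) (m : ℕ) :
    ∃ (c : Finset (Fin d → Fin ((d + 1) * m)) → ZMod 2)
      (F : Finset (Finset (Fin d → Fin ((d + 1) * m)))),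
      (∀ A, A ∈ F ↔ poly m c A ≠ 0) ∧ F.card * 2 ^ m = 2 ^ (((d + 1) * m) ^ d) ∧ ¬ Good F := by
  classical
  have hprod : ∀ A : Finset (Fin d → Fin ((d + 1) * m)), ∏ j, Pool.Agent.Y474.CO.cond d m A j =
      ∑ φ ∈ Fintype.piFinset (fun _ : Fin m => W d),
        (if (univ.image fun j => bl d m j (φ j)) ⊆ A then (1 : ZMod 2) else 0) := by
    intro A
    unfold Pool.Agent.Y474.CO.cond
    rw [prod_univ_sum]
    refine sum_congr rfl fun φ _ => ?_
    rw [Finset.prod_ite_zero]
    simp [image_subset_iff]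
  have hone : ∀ z : ZMod 2, z ≠ 0 ↔ z = 1 := by decide
  refine ⟨fun T => ∑ φ ∈ Fintype.piFinset (fun _ : Fin m => W d),
    if (univ.image fun j => bl d m j (φ j)) = T then 1 else 0,
    univ.filter fun A => ∀ j, Pool.Agent.Y474.CO.cond d m A j = 1, ?_, Pool.Agent.Y474.CO.count d m hd, ?_⟩
  · intro A
    rw [poly_of_sum _ _ _ _ (fun φ _ => card_image_le.trans (by simp)), ← hprod, mem_filter]
    simp only [mem_univ, true_and]
    rw [Ne, prod_eq_zero_iff]
    push Not
    exact forall_congr' fun j => by simp [hone]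
  · rintro ⟨A, hA, γ, hγ, hdis, hU⟩
    rw [mem_filter] at hA hU
    obtain ⟨i, hi⟩ := hγ
    obtain ⟨⟨t, j⟩, hij⟩ := (finProdFinEquiv (m := d + 1) (n := m)).surjective i
    have h1 := hU.2 j
    have h0 : A ∪ pw d γ = symmDiff A (pw d γ) := (hdis.symmDiff_eq_sup).symm
    rw [h0, cond_symm, hA.2 j] at h1
    have h2 : Pool.Agent.Y474.CO.cond d m (pw d γ) j = 0 := by simpa using h1
    obtain ⟨g, hg⟩ : ∃ g : Finset (Fin (d + 1)),
      g = univ.filter fun t => finProdFinEquiv (t, j) ∈ γ := ⟨_, rfl⟩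
    have h3 : Pool.Agent.Y474.CO.cond d m (pw d γ) j =
        ∑ w ∈ W d, (if ∀ i, w i ∈ g then (1 : ZMod 2) else 0) := by
      refine sum_congr rfl fun w _ => if_congr ?_ rfl rfl
      rw [mem_pw, hg]
      simp [bl]
    rw [h3, sumW] at h2
    have h4 : g = univ := by
      refine par d g ⟨t, ?_⟩ h2
      rw [hg, mem_filter, hij]
      exact ⟨mem_univ _, hi⟩
    have h5 := hA.2 j
    have h6 : Pool.Agent.Y474.CO.cond d m A j = 0 := by
      refine sum_eq_zero fun w _ => if_neg fun hw => ?_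
      refine Finset.disjoint_left.1 hdis hw (mem_pw.2 fun i => ?_)
      have h7 : w i ∈ g := by rw [h4]; exact mem_univ _
      rw [hg, mem_filter] at h7
      exact h7.2
    rw [h6] at h5
    exact zero_ne_one h5

end Pool.Agent.N389.PH.Exact
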