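import Pool.Agent.N389.PH.Real

/-! # Functions of small degree with rational values whose support is not good -/

set_option autoImplicit false

namespace Pool.Agent.N389.PH.Exact

open Finset

/-- the diagonal tuple -/
def dg (d m : ℕ) (b : Fin 2) (j : Fin m) : Fin d → Fin (2 * m) := fun _ => finProdFinEquiv (b, j)

/-- for `N = 2 m` some function of degree at most `m` has a support which is not good -/
theorem sharp_rat {d : ℕ} (hd : 1 ≤ d) (m : ℕ) :
    ∃ (c : Finset (Fin d → Fin (2 * m)) → ℚ) (F : Finset (Finset (Fin d → Fin (2 * m)))),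
      (∀ A, A ∈ F ↔ poly m c A ≠ 0) ∧ F.Nonempty ∧ ¬ Good F := by
  classical
  have hprod : ∀ A : Finset (Fin d → Fin (2 * m)),
      ∏ j : Fin m, ∑ b ∈ (univ : Finset (Fin 2)),
        (-1 : ℚ) ^ (b : ℕ) * (if dg d m b j ∈ A then 1 else 0) =
      ∑ φ ∈ Fintype.piFinset (fun _ : Fin m => (univ : Finset (Fin 2))),
        (if (univ.image fun j => dg d m (φ j) j) ⊆ A then ∏ j, (-1 : ℚ) ^ (φ j : ℕ) else 0) := by
    intro A
    rw [prod_univ_sum]
    refine sum_congr rfl fun φ _ => ?_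
    rw [prod_mul_distrib, Finset.prod_ite_zero]
    simp [image_subset_iff]
  have hval : ∀ (A : Finset (Fin d → Fin (2 * m))) (j : Fin m),
      (∑ b ∈ (univ : Finset (Fin 2)), (-1 : ℚ) ^ (b : ℕ) * (if dg d m b j ∈ A then 1 else 0)) ≠ 0 ↔
        ¬ (dg d m 0 j ∈ A ↔ dg d m 1 j ∈ A) := by
    intro A j
    rw [Fin.sum_univ_two]
    by_cases h0 : dg d m 0 j ∈ A <;> by_cases h1 : dg d m 1 j ∈ A <;> simp [h0, h1]
  have hinj : ∀ (b b' : Fin 2) (j j' : Fin m), dg d m b j = dg d m b' j' → b = b' ∧ j = j' := by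
    intro b b' j j' h
    have h1 := finProdFinEquiv.injective (congrFun h ⟨0, hd⟩)
    rw [Prod.mk.injEq] at h1
    exact h1
  refine ⟨fun T => ∑ φ ∈ Fintype.piFinset (fun _ : Fin m => (univ : Finset (Fin 2))),
    if (univ.image fun j => dg d m (φ j) j) = T then ∏ j, (-1 : ℚ) ^ (φ j : ℕ) else 0,
    univ.filter fun A => ∀ j : Fin m, ¬ (dg d m 0 j ∈ A ↔ dg d m 1 j ∈ A), ?_, ?_, ?_⟩
  · intro A
    rw [poly_of_sum _ _ _ _ (fun φ _ => card_image_le.trans (by simp)), ← hprod, mem_filter]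
    simp only [mem_univ, true_and]
    rw [Ne, prod_eq_zero_iff]
    push Not
    simp only [mem_univ, true_implies]
    exact forall_congr' fun j => by
      rw [hval A j]
      tauto
  · refine ⟨univ.image fun j => dg d m 0 j, mem_filter.2 ⟨mem_univ _, fun j h => ?_⟩⟩
    have h1 := h.1 (mem_image_of_mem _ (mem_univ j))
    obtain ⟨j', _, hj'⟩ := mem_image.1 h1
    have := (hinj _ _ _ _ hj').1
    exact absurd this (by decide)
  · rintro ⟨A, hA, γ, ⟨i, hi⟩, hdis, hU⟩
    rw [mem_filter] at hA hU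
    obtain ⟨⟨b, j⟩, hij⟩ := (finProdFinEquiv (m := 2) (n := m)).surjective i
    have h1 : dg d m b j ∈ pw d γ := by
      rw [mem_pw]
      intro l
      rw [dg, hij]
      exact hi
    have h2 : dg d m b j ∉ A := fun h => Finset.disjoint_left.1 hdis h h1
    have h3 : dg d m b j ∈ A ∪ pw d γ := mem_union_right _ h1
    have h4 := hA.2 j
    have h5 := hU.2 j
    have hb : b = 0 ∨ b = 1 := by fin_cases b <;> simp
    rcases hb with rfl | rfl
    · have h6 : dg d m 1 j ∈ A := by by_contra h7; exact h4 ⟨fun h => absurd h h2, fun h => absurd h h7⟩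
      exact h5 ⟨fun _ => mem_union_left _ h6, fun _ => h3⟩
    · have h6 : dg d m 0 j ∈ A := by by_contra h7; exact h4 ⟨fun h => absurd h h7, fun h => absurd h h2⟩
      exact h5 ⟨fun _ => h3, fun _ => mem_union_left _ h6⟩

end Pool.Agent.N389.PH.Exact
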