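import Pool.Agent.N389.PH.Sens

/-! # The relative form for families of small real degree -/

set_option autoImplicit false

namespace Pool.Agent.N389.PH.Exact

open Finset

section

variable {d m N : ℕ}

/-- the tuples of a block -/
def kap (ι : Fin m → Fin N) (x : Fin d → Fin m) : Fin d → Fin N := fun l => ι (x l)

lemma kap_inj {ι : Fin m → Fin N} (hι : Function.Injective ι) :
    Function.Injective (kap (d := d) ι) := by
  intro x y h
  funext l
  exact hι (congrFun h l)

lemma transport (ι : Fin m → Fin N) (hι : Function.Injective ι)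
    (S : Finset (Finset (Fin d → Fin N))) (B : Finset (Fin d → Fin N))
    (hB : Disjoint B (univ.image (kap (d := d) ι)))
    (h : Good (univ.filter fun Z : Finset (Fin d → Fin m) => B ∪ Z.image (kap ι) ∈ S)) :
    Good S := by
  classical
  obtain ⟨Z, hZ, γ, hγ, hdis, hU⟩ := h
  rw [mem_filter] at hZ hU
  have hpw : pw d (γ.image ι) = (pw d γ).image (kap ι) := by
    ext x
    rw [mem_pw, mem_image]
    constructor
    · intro h
      choose y hy hyx using fun l => mem_image.1 (h l)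
      exact ⟨y, mem_pw.2 hy, funext hyx⟩
    · rintro ⟨y, hy, rfl⟩ l
      exact mem_image_of_mem _ (mem_pw.1 hy l)
  refine ⟨_, hZ.2, γ.image ι, hγ.image ι, ?_, ?_⟩
  · rw [hpw, disjoint_union_left]
    refine ⟨Finset.disjoint_of_subset_right (image_subset_image (subset_univ _)) hB, ?_⟩
    exact (disjoint_image (kap_inj hι)).2 hdis
  · rw [hpw, union_assoc, ← image_union]
    exact hU.2

lemma card_transport (ι : Fin m → Fin N) (hι : Function.Injective ι)
    (S : Finset (Finset (Fin d → Fin N))) (B : Finset (Fin d → Fin N)) :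
    (univ.filter fun Z : Finset (Fin d → Fin m) => B ∪ Z.image (kap ι) ∈ S).card =
      ((univ.image (kap (d := d) ι)).powerset.filter fun X => B ∪ X ∈ S).card := by
  classical
  refine card_nbij (fun Z => Z.image (kap ι)) ?_ ?_ ?_
  · intro Z hZ
    rw [mem_coe, mem_filter] at hZ
    rw [mem_coe, mem_filter, mem_powerset]
    exact ⟨image_subset_image (subset_univ _), hZ.2⟩
  · intro Z _ Z' _ h
    exact image_injective (kap_inj hι) h
  · intro X hX
    rw [mem_coe, mem_filter, mem_powerset] at hX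
    obtain ⟨hX, hXS⟩ := hX
    have h1 : (univ.filter fun z => kap ι z ∈ X).image (kap ι) = X := by
      ext x
      rw [mem_image]
      constructor
      · rintro ⟨z, hz, rfl⟩; exact (mem_filter.1 hz).2
      · intro hx
        obtain ⟨z, _, rfl⟩ := mem_image.1 (hX hx)
        exact ⟨z, mem_filter.2 ⟨mem_univ _, hx⟩, rfl⟩
    refine ⟨univ.filter fun z => kap ι z ∈ X, ?_, h1⟩
    rw [mem_coe, mem_filter]
    exact ⟨mem_univ _, by rw [h1]; exact hXS⟩

/-- the relative form, with explicit loss -/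
theorem transfer (hd : 1 ≤ d) (hm : 1 ≤ m) (θ ε : ℝ) (h0 : 0 ≤ θ)
    (H : ∀ S₀ : Finset (Finset (Fin d → Fin m)), θ * 2 ^ (m ^ d) < S₀.card → Good S₀)
    (F S : Finset (Finset (Fin d → Fin N))) (hJ : 1 ≤ N / m)
    (hε : (2 : ℝ) ^ (m ^ d) * (bd F univ).card ≤ ε * (N / m : ℕ) * F.card)
    (hS : (θ + ε) * F.card < (S ∩ F).card) : Good S := by
  classical
  obtain ⟨J, hJdef⟩ : ∃ J, J = N / m := ⟨_, rfl⟩
  rw [← hJdef] at hJ hε
  have hJN : J * m ≤ N := by rw [hJdef]; exact Nat.div_mul_le_self N m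
  obtain ⟨ι, hι⟩ : ∃ ι : Fin J → Fin m → Fin N, ∀ j i, ((ι j i : Fin N) : ℕ) = j * m + i := by
    refine ⟨fun j i => ⟨j * m + i, ?_⟩, fun _ _ => rfl⟩
    have h1 : ((j : ℕ) + 1) * m ≤ J * m := Nat.mul_le_mul_right m j.2
    have h2 := i.2
    have h3 : ((j : ℕ) + 1) * m = j * m + m := by ring
    omega
  have hinj : ∀ j, Function.Injective (ι j) := by
    intro j i i' h
    have := congrArg (fun t : Fin N => (t : ℕ)) h
    simp only [hι] at this
    exact Fin.ext (by omega)
  obtain ⟨W, hW⟩ : ∃ W : Fin J → Finset (Fin d → Fin N), W = fun j => univ.image (kap (ι j)) :=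
    ⟨_, rfl⟩
  have hWc : ∀ j, (W j).card = m ^ d := by
    intro j
    rw [hW]
    simp only
    rw [card_image_of_injective _ (kap_inj (hinj j)), card_univ, Fintype.card_fun,
      Fintype.card_fin, Fintype.card_fin]
  have hWd : ∀ j j', j ≠ j' → Disjoint (W j) (W j') := by
    intro j j' hjj
    rw [Finset.disjoint_left]
    intro x hx hx'
    rw [hW] at hx hx'
    obtain ⟨y, _, hy⟩ := mem_image.1 hx
    obtain ⟨y', _, hy'⟩ := mem_image.1 hx'
    have h1 := congrArg (fun t : Fin N => (t : ℕ)) (congrFun (hy.trans hy'.symm) ⟨0, hd⟩)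
    simp only [kap, hι] at h1
    apply hjj
    have h2 := (y ⟨0, hd⟩).2
    have h3 := (y' ⟨0, hd⟩).2
    have h4 : (j : ℕ) = (j * m + y ⟨0, hd⟩) / m := by
      rw [mul_comm, Nat.mul_add_div (by omega), Nat.div_eq_of_lt h2, add_zero]
    have h5 : (j' : ℕ) = (j' * m + y' ⟨0, hd⟩) / m := by
      rw [mul_comm, Nat.mul_add_div (by omega), Nat.div_eq_of_lt h3, add_zero]
    exact Fin.ext (by rw [h4, h5, h1])
  -- a block with a small boundary
  have hsum : ∑ j, (bd F (W j)).card ≤ (bd F univ).card := by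
    rw [← card_biUnion]
    · refine card_le_card fun q hq => ?_
      obtain ⟨j, _, hj⟩ := mem_biUnion.1 hq
      simp only [bd, mem_filter, mem_product] at hj ⊢
      exact ⟨⟨hj.1.1, mem_univ _⟩, hj.2⟩
    · intro j _ j' _ hjj
      show Disjoint _ _
      rw [Finset.disjoint_left]
      intro q hq hq'
      simp only [bd, mem_filter, mem_product] at hq hq'
      exact Finset.disjoint_left.1 (hWd j j' hjj) hq.1.2 hq'.1.2
  obtain ⟨j, hj⟩ : ∃ j : Fin J, J * (bd F (W j)).card ≤ (bd F univ).card := by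
    by_contra hcon
    push Not at hcon
    have hne : (univ : Finset (Fin J)).Nonempty := ⟨⟨0, hJ⟩, mem_univ _⟩
    have h1 := sum_lt_sum_of_nonempty hne fun j _ => hcon j
    have h3 : ∑ _j : Fin J, (bd F univ).card = J * (bd F univ).card := by
      rw [sum_const, card_univ, Fintype.card_fin, smul_eq_mul]
    have h4 : ∑ j, J * (bd F (W j)).card = J * ∑ j, (bd F (W j)).card := by rw [mul_sum]
    rw [h3, h4] at h1
    have h2 := Nat.mul_le_mul_left J hsum
    omega
  have hJ0 : (0 : ℝ) < J := by exact_mod_cast hJ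
  have hbad : ((F \ full F (W j)).card : ℝ) ≤ ε * F.card := by
    have h1 := bad_card F (W j)
    rw [hWc] at h1
    have h2 : J * (F \ full F (W j)).card ≤ 2 ^ (m ^ d) * (bd F univ).card := by
      calc J * (F \ full F (W j)).card ≤ J * (2 ^ (m ^ d) * (bd F (W j)).card) :=
            Nat.mul_le_mul_left J h1
        _ = 2 ^ (m ^ d) * (J * (bd F (W j)).card) := by ring
        _ ≤ 2 ^ (m ^ d) * (bd F univ).card := Nat.mul_le_mul_left _ hj
    have h3 : (J : ℝ) * (F \ full F (W j)).card ≤ 2 ^ (m ^ d) * (bd F univ).card := by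
      exact_mod_cast h2
    have h5 : ((F \ full F (W j)).card : ℝ) * J ≤ (ε * F.card) * J := by linarith
    exact le_of_mul_le_mul_right h5 hJ0
  have hgoodS : θ * F.card < (S ∩ full F (W j)).card := by
    have h1 : S ∩ F ⊆ (S ∩ full F (W j)) ∪ (F \ full F (W j)) := by
      intro A hA
      rw [mem_inter] at hA
      rw [mem_union, mem_inter, mem_sdiff]
      by_cases h2 : A ∈ full F (W j)
      · exact Or.inl ⟨hA.1, h2⟩
      · exact Or.inr ⟨hA.2, h2⟩
    have h2 := (card_le_card h1).trans (card_union_le _ _)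
    have h3 : ((S ∩ F).card : ℝ) ≤ (S ∩ full F (W j)).card + (F \ full F (W j)).card := by
      exact_mod_cast h2
    linarith
  obtain ⟨B, hB, hBS⟩ := exists_coset F S (W j) θ h0 hgoodS
  rw [hWc] at hBS
  refine transport (ι j) (hinj j) S B (by rw [hW] at hB; exact hB) (H _ ?_)
  rw [card_transport (ι j) (hinj j) S B]
  rw [hW] at hBS
  exact hBS

/-- all densities above `θ` are fine in dimension `d` -/
def Above (d : ℕ) (θ : ℝ) : Prop :=
  ∀ δ : ℝ, θ < δ → ∃ N : ℕ, 1 ≤ N ∧ ∀ S : Finset (Finset (Fin d → Fin N)),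
    δ * (2 : ℝ) ^ (N ^ d) < S.card → Good S

/-- the relative form for families with boundary at most `c N |F|` -/
theorem rel (hd : 1 ≤ d) (θ θ' : ℝ) (h0 : 0 ≤ θ) (h : θ < θ') (HA : Above d θ) :
    ∃ c : ℝ, 0 < c ∧ ∃ N₀ : ℕ, ∀ N : ℕ, N₀ ≤ N → ∀ F S : Finset (Finset (Fin d → Fin N)),
      ((bd F univ).card : ℝ) ≤ c * N * F.card → θ' * F.card < (S ∩ F).card → Good S := by
  obtain ⟨m, hm, H⟩ := HA ((θ + θ') / 2) (by linarith)
  have hm0 : (0 : ℝ) < m := by exact_mod_cast hm
  obtain ⟨ε, hε⟩ : ∃ ε : ℝ, ε = (θ' - θ) / 2 := ⟨_, rfl⟩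
  have hε0 : 0 < ε := by rw [hε]; linarith
  refine ⟨ε / (2 * m * 2 ^ (m ^ d)), by positivity, m, fun N hN F S hL hS => ?_⟩
  have hJ : 1 ≤ N / m := (Nat.one_le_div_iff (by omega)).2 hN
  refine transfer hd hm ((θ + θ') / 2) ε (by linarith) H F S hJ ?_ ?_
  · have h1 : N < m * (N / m + 1) := Nat.lt_mul_div_succ N (by omega)
    have h2 : N ≤ 2 * m * (N / m) := by nlinarith
    have h3 : (N : ℝ) ≤ 2 * m * (N / m : ℕ) := by exact_mod_cast h2
    have h4 : ε / (2 * m) * N ≤ ε * (N / m : ℕ) := by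
      calc ε / (2 * m) * N ≤ ε / (2 * m) * (2 * m * (N / m : ℕ)) :=
            mul_le_mul_of_nonneg_left h3 (by positivity)
        _ = ε * (N / m : ℕ) := by field_simp
    calc (2 : ℝ) ^ (m ^ d) * (bd F univ).card
        ≤ 2 ^ (m ^ d) * (ε / (2 * m * 2 ^ (m ^ d)) * N * F.card) :=
          mul_le_mul_of_nonneg_left hL (by positivity)
      _ = (ε / (2 * m) * N) * F.card := by field_simp
      _ ≤ ε * (N / m : ℕ) * F.card := mul_le_mul_of_nonneg_right h4 (Nat.cast_nonneg _)
  · have : (θ + θ') / 2 + ε = θ' := by rw [hε]; ring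
    rw [this]
    exact hS

end

end Pool.Agent.N389.PH.Exact
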